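import Pool.Agent.Q80.SP.Cmd

set_option autoImplicit false

/-! The Dirichlet polynomial against the smoothed power of zeta. -/

namespace Q80.SP

open MeasureTheory Filter Topology Complex Set
open Pool.Agent.W182.KO (P TF P_bound P_diff J2 J2_nonneg ZP I0 K0 DF tau_ptw ZP_DF shift RR
  K0_decay norm_integral_decay dk)
open Q97.MM
open scoped ENNReal

noncomputable section

variable (k : ℕ) {ξ1 : ℝ} {ψ : ℝ → ℂ}

theorem DF_one (c R : ℝ) (M : ℕ) : DF (fun _ => (1 : ℂ)) c R M 1 where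
  hC := zero_le_one
  diff _ _ _ _ := differentiableAt_const 1
  line := continuous_const
  cline := continuous_const
  bdl u := by
    rw [norm_one, one_mul]
    exact one_le_pow₀ (by linarith [abs_nonneg u])
  bd s _ _ _ := by
    rw [norm_one, one_mul]
    exact one_le_pow₀ (by linarith [abs_nonneg s.im])
  bdc u := by simp

theorem DF_zeta : ∃ C, DF (ZP (fun _ : Fin k => (0:ℝ))) c2 1 (2 * k) C := by
  obtain ⟨D, hD0, hD⟩ := tau_ptw k (show (0 : ℝ) < 1 / 4 by norm_num)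
  exact ZP_DF (fun _ => 0) (by norm_num) hD0 (hD _) le_rfl (by simp [RR])

theorem sm_I0 (ψ : ℝ → ℂ) (L t : ℝ) : sm ψ L (hz k) t =
    ((L / (2 * Real.pi) : ℝ) : ℂ) * I0 ψ (ZP (fun _ : Fin k => (0:ℝ))) (fun _ => 1) L t := by
  unfold sm I0
  rw [← integral_const_mul]
  refine integral_congr_ae (Eventually.of_forall fun y => ?_)
  simp only [kr, mul_one, ZP_zero', hz]
  have : pt (t + y) = 1 / 2 + ((y + t : ℝ) : ℂ) * I := by
    unfold pt
    push_cast
    ring
  rw [this]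
  ring

theorem apx (h : TF ξ1 ψ) (hξ : 0 ≤ ξ1) (A : ℕ) : ∃ C : ℝ, 0 ≤ C ∧ ∀ T : ℝ, 4 ≤ T → ∀ t : ℝ,
    |t - T| ≤ T / 2 → ‖DP k ψ (Real.log T) t - sm ψ (Real.log T) (hz k) t‖ ≤ C / T ^ A := by
  obtain ⟨C1, hD1⟩ := DF_zeta k
  obtain ⟨m, hm⟩ := exists_nat_ge (ξ1 * (3 / 2))
  obtain ⟨C', hC', hs⟩ := shift h hξ hD1 (DF_one c2 1 (2 * k)) (by rw [c2_eq]; norm_num)
    (A + m + 4 * k + 1)
  refine ⟨C' * 3 ^ (4 * k) * 2 ^ (A + m + 4 * k + 1), by positivity, fun T hT t ht => ?_⟩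
  have hT0 : 0 < T := by linarith
  have hL1 : 1 ≤ Real.log T := by
    have h1 : Real.exp 1 ≤ T := by linarith [Real.exp_one_lt_d9]
    have h2 := Real.log_le_log (Real.exp_pos 1) h1
    rwa [Real.log_exp] at h2
  set L := Real.log T with hL
  have hL0 : 0 < L := by linarith
  have hLT : L ≤ T := (Real.log_le_sub_one_of_pos hT0).trans (by linarith)
  rw [abs_le] at ht
  have ht1 : T / 2 ≤ t := by linarith [ht.1]
  have ht2 : 1 + t ≤ 3 * T := by linarith [ht.2]
  have h1 := hs L (T / 2) t hL1 (by linarith) (by linarith) ht1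
  rw [sm_I0, ← DP_eq h k hL0 t, ← mul_sub, norm_mul, Complex.norm_real,
    Real.norm_of_nonneg (by positivity), norm_sub_rev]
  have hE : Real.exp (ξ1 * (L * (c2 - 1 / 2))) ≤ T ^ m := by
    have e1 : T ^ m = Real.exp (m * L) := by
      rw [hL, mul_comm, ← Real.rpow_def_of_pos hT0, Real.rpow_natCast]
    rw [e1, c2_eq]
    apply Real.exp_le_exp.2
    nlinarith
  have hpi : (1 : ℝ) ≤ 2 * Real.pi := by linarith [Real.pi_gt_three]
  have hLp : L / (2 * Real.pi) ≤ T := (div_le_self hL0.le hpi).trans hLT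
  calc L / (2 * Real.pi) * ‖I0 ψ (ZP fun _ : Fin k => (0:ℝ)) (fun _ => 1) L t -
        K0 ψ (ZP fun _ : Fin k => (0:ℝ)) (fun _ => 1) c2 L t‖
      ≤ T * (C' * (T ^ m * (3 * T) ^ (2 * (2 * k))) / (T / 2) ^ (A + m + 4 * k + 1)) := by
        have ht0 : 0 ≤ t := by linarith
        apply mul_le_mul hLp _ (norm_nonneg _) hT0.le
        refine h1.trans ?_
        gcongr
    _ = C' * 3 ^ (4 * k) * 2 ^ (A + m + 4 * k + 1) / T ^ A := by
        have e2 : 2 * (2 * k) = 4 * k := by ring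
        rw [e2, div_pow, mul_pow]
        have e3 : T ^ (A + m + 4 * k + 1) = T ^ A * (T ^ m * T ^ (4 * k) * T) := by
          rw [pow_succ, pow_add, pow_add]; ring
        rw [e3]
        field_simp

/-- crude bound for the difference -/
theorem crude (h : TF ξ1 ψ) (hξ : 0 ≤ ξ1) : ∃ (C : ℝ) (m : ℕ), 0 ≤ C ∧ ∀ T : ℝ, 4 ≤ T → ∀ t : ℝ,
    ‖DP k ψ (Real.log T) t - sm ψ (Real.log T) (hz k) t‖ ≤ C * T ^ m * (1 + |t|) ^ (2 * k) := by
  obtain ⟨C1, hD1⟩ := DF_zeta k
  have hC1 := hD1.hC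
  obtain ⟨m, hm⟩ := exists_nat_ge (ξ1 * (3 / 2))
  obtain ⟨CN, hCN, hP⟩ := P_bound h (0 + 2 + 2 * (2 * k))
  obtain ⟨C3, hC3, hb⟩ := kr_bd h (2 * k + 2)
  have hJ := J2_nonneg
  refine ⟨CN * C1 * J2 + C3 * 180 ^ k * J2, m + 1, by positivity, fun T hT t => ?_⟩
  have hT0 : 0 < T := by linarith
  have hL1 : 1 ≤ Real.log T := by
    have h1 : Real.exp 1 ≤ T := by linarith [Real.exp_one_lt_d9]
    have h2 := Real.log_le_log (Real.exp_pos 1) h1
    rwa [Real.log_exp] at h2
  set L := Real.log T with hL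
  have hL0 : 0 < L := by linarith
  have hLT : L ≤ T := (Real.log_le_sub_one_of_pos hT0).trans (by linarith)
  have hpi : (1 : ℝ) ≤ 2 * Real.pi := by linarith [Real.pi_gt_three]
  have hLp : L / (2 * Real.pi) ≤ T := (div_le_self hL0.le hpi).trans hLT
  have hE : Real.exp (ξ1 * (L * (c2 - 1 / 2))) ≤ T ^ m := by
    have e1 : T ^ m = Real.exp (m * L) := by
      rw [hL, mul_comm, ← Real.rpow_def_of_pos hT0, Real.rpow_natCast]
    rw [e1, c2_eq]
    apply Real.exp_le_exp.2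
    nlinarith
  have ht1 : 1 ≤ (1 + |t|) ^ (2 * k) := one_le_pow₀ (by linarith [abs_nonneg t])
  have hTm : T ^ m * T = T ^ (m + 1) := (pow_succ T m).symm
  -- the Dirichlet polynomial
  have g1 : ‖DP k ψ L t‖ ≤ CN * C1 * J2 * T ^ (m + 1) * (1 + |t|) ^ (2 * k) := by
    rw [← DP_eq h k hL0 t, norm_mul, Complex.norm_real, Real.norm_of_nonneg (by positivity)]
    have q := norm_integral_decay (n := 0)
      (B := CN * (C1 * 1 * Real.exp (ξ1 * (L * (c2 - 1 / 2))))) (by positivity)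
      (fun y => K0_decay hD1 (DF_one c2 1 (2 * k)) (by rw [c2_eq]; norm_num) hCN hP hL1 t y)
    have q' : ‖K0 ψ (ZP fun _ : Fin k => (0:ℝ)) (fun _ => 1) c2 L t‖ ≤ CN * (C1 * 1 * T ^ m) * J2 := by
      refine q.trans ?_
      gcongr
    calc _ ≤ T * (CN * (C1 * 1 * T ^ m) * J2) := mul_le_mul hLp q' (norm_nonneg _) hT0.le
      _ = CN * C1 * J2 * T ^ (m + 1) * 1 := by rw [← hTm]; ring
      _ ≤ _ := by gcongr
  -- the smoothed power of zeta
  have g2 : ‖sm ψ L (hz k) t‖ ≤ C3 * 180 ^ k * J2 * T ^ (m + 1) * (1 + |t|) ^ (2 * k) := by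
    have q : ‖sm ψ L (hz k) t‖ ≤ ∫ y : ℝ, (C3 * 180 ^ k * (1 + |t|) ^ (2 * k)) *
        (L / (1 + L * |y|) ^ 2) := by
      unfold sm
      refine norm_integral_le_of_norm_le ((sc_int hL0).const_mul _) (Eventually.of_forall fun y => ?_)
      rw [norm_mul]
      have a1 := hb L hL0 y
      have a2 := hz_bd k (t + y)
      have a3 : (1 + |t + y|) ^ (2 * k) ≤ (1 + |t|) ^ (2 * k) * (1 + L * |y|) ^ (2 * k) := by
        rw [← mul_pow]
        have := abs_add_le t y
        have n1 := abs_nonneg t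
        have n2 := abs_nonneg y
        have n3 : |y| ≤ L * |y| := by nlinarith
        gcongr
        nlinarith [mul_nonneg n1 (mul_nonneg hL0.le n2)]
      have hp : 0 < 1 + L * |y| := by positivity
      calc ‖kr ψ L y‖ * ‖hz k (t + y)‖ ≤ (C3 * (L / (1 + L * |y|) ^ (2 * k + 2))) *
            (180 ^ k * ((1 + |t|) ^ (2 * k) * (1 + L * |y|) ^ (2 * k))) := by
            apply mul_le_mul a1 _ (norm_nonneg _) (by positivity)
            refine a2.trans ?_
            gcongr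
        _ = _ := by
            rw [pow_add]
            field_simp
    rw [integral_const_mul, sc_val hL0] at q
    refine q.trans ?_
    have hT1 : 1 ≤ T ^ (m + 1) := one_le_pow₀ (by linarith)
    calc C3 * 180 ^ k * (1 + |t|) ^ (2 * k) * J2 = C3 * 180 ^ k * J2 * 1 * (1 + |t|) ^ (2 * k) := by
          ring
      _ ≤ _ := by gcongr
  refine (norm_sub_le _ _).trans ?_
  have : (CN * C1 * J2 + C3 * 180 ^ k * J2) * T ^ (m + 1) * (1 + |t|) ^ (2 * k) =
    CN * C1 * J2 * T ^ (m + 1) * (1 + |t|) ^ (2 * k) +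
      C3 * 180 ^ k * J2 * T ^ (m + 1) * (1 + |t|) ^ (2 * k) := by ring
  rw [this]
  exact add_le_add g1 g2

theorem DP_cont (h : TF ξ1 ψ) {L : ℝ} (hL : 0 < L) : Continuous (DP k ψ L) := by
  unfold DP
  obtain ⟨N, hN⟩ := exists_nat_ge (Real.exp (ξ1 * L))
  refine continuous_tsum (u := fun n : ℕ => ‖(dk k n : ℂ) * ψ (Real.log n / L)‖) (fun n => ?_) ?_
    fun n t => ?_
  · rcases Nat.eq_zero_or_pos n with hn | hn
    · subst hn
      simp only [dk_zero, Nat.cast_zero, zero_mul]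
      exact continuous_const
    · refine continuous_const.mul ?_
      refine Continuous.const_cpow (by fun_prop) (Or.inl ?_)
      exact_mod_cast hn.ne'
  · refine summable_of_ne_finset_zero (s := Finset.range (N + 1)) fun n hn => ?_
    rw [Finset.mem_range, not_lt] at hn
    have hn1 : (N : ℝ) + 1 ≤ n := by exact_mod_cast hn
    have hlt : ξ1 < Real.log n / L := by
      rw [lt_div_iff₀ hL, Real.lt_log_iff_exp_lt (by linarith [Real.exp_pos (ξ1 * L)])]
      linarith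
    rw [h.sp _ hlt, mul_zero, norm_zero]
  · rcases Nat.eq_zero_or_pos n with hn | hn
    · subst hn
      simp [dk_zero]
    · rw [norm_mul, Complex.norm_natCast_cpow_of_pos hn]
      refine mul_le_of_le_one_right (norm_nonneg _) ?_
      have e : (-(1 / 2 + (t : ℂ) * I)).re = -(1 / 2) := by simp
      rw [e]
      exact Real.rpow_le_one_of_one_le_of_nonpos (by exact_mod_cast hn) (by norm_num)

theorem sm_meas (h : TF ξ1 ψ) (L : ℝ) {f : ℝ → ℂ} (hf : Continuous f) :
    AEStronglyMeasurable (sm ψ L f) volume := by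
  have h1 : Continuous (fun p : ℝ × ℝ => kr ψ L p.2 * f (p.1 + p.2)) := by
    have := kr_cont h L
    fun_prop
  exact h1.stronglyMeasurable.integral_prod_right'.aestronglyMeasurable

end

end Q80.SP
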