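import Pool.Agent.Q80.SP.Dir

set_option autoImplicit false

/-! Estimates for the commutator of the smoothing operator and a Gaussian weight. -/

namespace Q80.SP

open MeasureTheory Filter Topology Complex Set
open Pool.Agent.W182.KO (P TF J2 J2_nonneg)
open Q97.MM
open scoped ENNReal

noncomputable section

/-- Cauchy–Schwarz for a weighted integral. -/
theorem cs_lint {a b : ℝ → ℝ≥0∞} (ha : Measurable a) (hb : Measurable b) :
    (∫⁻ y, a y * b y) ^ 2 ≤ (∫⁻ y, a y) * ∫⁻ y, a y * b y ^ 2 := by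
  have h1 := ENNReal.lintegral_mul_le_Lp_mul_Lq (volume : Measure ℝ) (p := 2) (q := 2)
    Real.HolderConjugate.two_two (f := fun y => a y ^ (1 / 2 : ℝ))
    (g := fun y => a y ^ (1 / 2 : ℝ) * b y) (ha.pow_const _).aemeasurable
    ((ha.pow_const _).mul hb).aemeasurable
  have e1 : ∀ y, a y ^ (1 / 2 : ℝ) * a y ^ (1 / 2 : ℝ) = a y := by
    intro y
    rw [← ENNReal.rpow_add_of_nonneg _ _ (by norm_num) (by norm_num)]
    norm_num
  have e2 : ∀ y, (a y ^ (1 / 2 : ℝ)) ^ (2 : ℝ) = a y := by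
    intro y
    rw [← ENNReal.rpow_mul]
    norm_num
  have e3 : ∫⁻ y, ((fun y => a y ^ (1 / 2 : ℝ)) * fun y => a y ^ (1 / 2 : ℝ) * b y) y =
      ∫⁻ y, a y * b y := by
    refine lintegral_congr fun y => ?_
    simp only [Pi.mul_apply]
    rw [← mul_assoc, e1]
  have e4 : ∫⁻ y, (a y ^ (1 / 2 : ℝ) * b y) ^ (2 : ℝ) = ∫⁻ y, a y * b y ^ 2 := by
    refine lintegral_congr fun y => ?_
    rw [ENNReal.mul_rpow_of_nonneg _ _ (by norm_num), e2]
    congr 1
    exact ENNReal.rpow_natCast (b y) 2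
  rw [e3, e4] at h1
  simp only [e2] at h1
  have h2 : (∫⁻ y, a y * b y) ^ 2 ≤
      ((∫⁻ y, a y) ^ (1 / 2 : ℝ) * (∫⁻ y, a y * b y ^ 2) ^ (1 / 2 : ℝ)) ^ 2 := by
    gcongr
  refine h2.trans (le_of_eq ?_)
  rw [mul_pow]
  congr 1
  · rw [← ENNReal.rpow_natCast, ← ENNReal.rpow_mul]
    norm_num
  · rw [← ENNReal.rpow_natCast, ← ENNReal.rpow_mul]
    norm_num

/-- The square norm of an average of functions. -/
theorem avg_sq {κ : ℝ → ℂ} (hκ : Continuous κ) {K : ℝ → ℝ → ℂ}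
    (hK : Continuous (fun p : ℝ × ℝ => K p.1 p.2)) :
    ∫⁻ t, ‖∫ y, κ y * K t y‖ₑ ^ 2 ≤
      (∫⁻ y, ‖κ y‖ₑ) * ∫⁻ y, ‖κ y‖ₑ * ∫⁻ t, ‖K t y‖ₑ ^ 2 := by
  have hκm : Measurable (fun y => ‖κ y‖ₑ) := hκ.measurable.enorm
  have hKt : ∀ t, Measurable (fun y => ‖K t y‖ₑ) := fun t =>
    (hK.comp (by fun_prop : Continuous fun y : ℝ => (t, y))).measurable.enorm
  have hKm : Measurable (fun p : ℝ × ℝ => ‖K p.1 p.2‖ₑ) := hK.measurable.enorm
  calc ∫⁻ t, ‖∫ y, κ y * K t y‖ₑ ^ 2 ≤ ∫⁻ t, (∫⁻ y, ‖κ y‖ₑ * ‖K t y‖ₑ) ^ 2 := by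
        refine lintegral_mono fun t => ?_
        have h1 := enorm_integral_le_lintegral_enorm (μ := volume) (fun y => κ y * K t y)
        simp only [enorm_mul] at h1
        gcongr
    _ ≤ ∫⁻ t, (∫⁻ y, ‖κ y‖ₑ) * ∫⁻ y, ‖κ y‖ₑ * ‖K t y‖ₑ ^ 2 :=
        lintegral_mono fun t => cs_lint hκm (hKt t)
    _ = (∫⁻ y, ‖κ y‖ₑ) * ∫⁻ t, ∫⁻ y, ‖κ y‖ₑ * ‖K t y‖ₑ ^ 2 := by
        rw [lintegral_const_mul]
        have h2 : Measurable (fun p : ℝ × ℝ => ‖κ p.2‖ₑ * ‖K p.1 p.2‖ₑ ^ 2) :=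
          (hκm.comp measurable_snd).mul (hKm.pow_const 2)
        exact h2.lintegral_prod_right'
    _ = (∫⁻ y, ‖κ y‖ₑ) * ∫⁻ y, ‖κ y‖ₑ * ∫⁻ t, ‖K t y‖ₑ ^ 2 := by
        congr 1
        rw [lintegral_lintegral_swap]
        · refine lintegral_congr fun y => ?_
          rw [lintegral_const_mul]
          have : Measurable (fun t : ℝ => ‖K t y‖ₑ) :=
            (hK.comp (by fun_prop : Continuous fun t : ℝ => (t, y))).measurable.enorm
          exact this.pow_const 2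
        · refine Measurable.aemeasurable ?_
          exact (hκm.comp measurable_snd).mul (hKm.pow_const 2)

/-- the square root of the weight -/
def gg (T U t : ℝ) : ℝ := Real.exp (-((t - T) ^ 2 / (2 * U ^ 2)))

theorem gg_pos (T U t : ℝ) : 0 < gg T U t := Real.exp_pos _

theorem gg_sq {T U : ℝ} (t : ℝ) : gg T U t ^ 2 = wt T U t := by
  unfold gg wt
  rw [← Real.exp_nat_mul]
  congr 1
  push_cast
  rw [div_pow]
  by_cases hU : U = 0
  · subst hU; simp
  · field_simp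

theorem gg_cont (T U : ℝ) : Continuous (gg T U) := by unfold gg; fun_prop

variable (k : ℕ)

/-- the `k`-th power of zeta on the critical line -/
def hz (y : ℝ) : ℂ := riemannZeta (pt y) ^ k

theorem hz_cont : Continuous (hz k) := by
  have := zeta_line_cont (x := 1 / 2) (by norm_num)
  exact this.pow k

theorem hz_bd (y : ℝ) : ‖hz k y‖ ≤ 180 ^ k * (1 + |y|) ^ (2 * k) := by
  unfold hz
  rw [norm_pow]
  calc ‖riemannZeta (pt y)‖ ^ k ≤ (180 * (1 + |y|) ^ 2) ^ k := by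
        gcongr
        exact zeta_bd y
    _ = _ := by rw [mul_pow, ← pow_mul]

theorem FF_hz (T U y : ℝ) : FF k T U (pt y) = (pt y - 1) ^ k * (gg T U y : ℂ) * hz k y := by
  rw [FF_pt, Z1_pt, mul_pow, gg, hz]
  ring

theorem pt_sub_norm (y : ℝ) : ‖pt y - 1‖ ≤ 1 + |y| := by
  have e : pt y - 1 = ((-(1 / 2) : ℝ) : ℂ) + y * I := by unfold pt; push_cast; ring
  rw [e]
  refine (norm_add_le _ _).trans ?_
  rw [norm_mul, Complex.norm_I, mul_one, Complex.norm_real, Complex.norm_real, Real.norm_eq_abs,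
    Real.norm_eq_abs]
  have : |(-(1 / 2) : ℝ)| = 1 / 2 := by rw [abs_neg, abs_of_pos (by norm_num)]
  rw [this]
  linarith

/-- the difference of the Gaussian weights, near the centre and far from it -/
theorem gg_diff {T U L y : ℝ} (hU : 0 < U) (hL : 4 ≤ L) (hy : |y| ≤ U / L ^ 3) (t : ℝ) :
    |gg T U (t - y) - gg T U t| ^ 2 ≤ 256 / L ^ 4 * wt T U t +
      Real.exp (-(L ^ 2 / 16)) * Real.exp (-(((t - T) / U) ^ 2 / 2)) := by
  set x := (t - T) / U with hx
  set τ := y / U with hτ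
  have hL0 : 0 < L := by linarith
  have hτ1 : |τ| ≤ 1 / L ^ 3 := by
    rw [hτ, abs_div, abs_of_pos hU, div_le_iff₀ hU]
    refine hy.trans (le_of_eq ?_)
    ring
  have hL3 : 64 ≤ L ^ 3 := by
    calc (64 : ℝ) = 4 ^ 3 := by norm_num
      _ ≤ L ^ 3 := by gcongr
  have hτ2 : |τ| ≤ 1 := by
    refine hτ1.trans ?_
    rw [div_le_one (by positivity)]
    linarith
  have e1 : gg T U t = Real.exp (-(x ^ 2 / 2)) := by
    unfold gg
    congr 1
    rw [hx, div_pow]
    field_simp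
  have e2 : gg T U (t - y) = Real.exp (-((x - τ) ^ 2 / 2)) := by
    unfold gg
    congr 1
    rw [hx, hτ, ← sub_div, div_pow]
    field_simp
    ring
  have ew : wt T U t = Real.exp (-(x ^ 2 / 2)) ^ 2 := by rw [← gg_sq, e1]
  have hw : 0 ≤ 256 / L ^ 4 * wt T U t := mul_nonneg (by positivity) (wt_pos _ _ _).le
  have hE : 0 ≤ Real.exp (-(L ^ 2 / 16)) * Real.exp (-(x ^ 2 / 2)) := by positivity
  have hlog := abs_nonneg τ
  rcases le_total |x| L with h | h
  · -- near the centre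
    set θ := x * τ - τ ^ 2 / 2 with hθ
    have hθ1 : |θ| ≤ 2 / L ^ 2 := by
      have a1 : |θ| ≤ |x| * |τ| + |τ| ^ 2 / 2 := by
        rw [hθ]
        refine (abs_sub _ _).trans ?_
        have q : |τ ^ 2 / 2| = |τ| ^ 2 / 2 := by
          rw [abs_of_nonneg (by positivity : 0 ≤ τ ^ 2 / 2), sq_abs]
        rw [q, abs_mul]
      have a2 : |x| * |τ| ≤ L * (1 / L ^ 3) := mul_le_mul h hτ1 hlog hL0.le
      have a3 : |τ| ^ 2 ≤ 1 * (1 / L ^ 3) := by
        rw [sq]
        exact mul_le_mul hτ2 hτ1 hlog zero_le_one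
      have a4 : 1 / L ^ 3 ≤ 1 / L ^ 2 := by
        apply one_div_le_one_div_of_le (by positivity)
        exact pow_le_pow_right₀ (by linarith) (by norm_num)
      have a5 : L * (1 / L ^ 3) = 1 / L ^ 2 := by field_simp
      have a6 : 2 / L ^ 2 = 1 / L ^ 2 + 1 / L ^ 2 := by ring
      have a7 : 0 ≤ 1 / L ^ 2 := by positivity
      rw [a5] at a2
      rw [a6]
      linarith
    have hθ2 : |θ| ≤ 1 := by
      refine hθ1.trans ?_
      rw [div_le_one (by positivity)]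
      nlinarith
    have e3 : Real.exp (-((x - τ) ^ 2 / 2)) = Real.exp (-(x ^ 2 / 2)) * Real.exp θ := by
      rw [← Real.exp_add]
      congr 1
      rw [hθ]
      ring
    have h4 := Real.abs_exp_sub_one_le hθ2
    have h5 : |gg T U (t - y) - gg T U t| ≤ Real.exp (-(x ^ 2 / 2)) * (4 / L ^ 2) := by
      rw [e1, e2, e3]
      have : Real.exp (-(x ^ 2 / 2)) * Real.exp θ - Real.exp (-(x ^ 2 / 2)) =
          Real.exp (-(x ^ 2 / 2)) * (Real.exp θ - 1) := by ring
      rw [this, abs_mul, abs_of_pos (Real.exp_pos _)]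
      apply mul_le_mul_of_nonneg_left _ (Real.exp_pos _).le
      refine h4.trans ?_
      have : (4 : ℝ) / L ^ 2 = 2 * (2 / L ^ 2) := by ring
      rw [this]
      linarith
    have h6 : |gg T U (t - y) - gg T U t| ^ 2 ≤ (Real.exp (-(x ^ 2 / 2)) * (4 / L ^ 2)) ^ 2 := by
      gcongr
    have h7 : (Real.exp (-(x ^ 2 / 2)) * (4 / L ^ 2)) ^ 2 = 16 / L ^ 4 * wt T U t := by
      rw [ew, mul_pow, div_pow]
      ring
    have h8 : 16 / L ^ 4 * wt T U t ≤ 256 / L ^ 4 * wt T U t := by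
      apply mul_le_mul_of_nonneg_right _ (wt_pos _ _ _).le
      gcongr
      norm_num
    linarith
  · -- far from the centre
    have h1 : |gg T U (t - y) - gg T U t| ≤ Real.exp (-((|x| - 1) ^ 2 / 2)) := by
      have b1 : gg T U t ≤ Real.exp (-((|x| - 1) ^ 2 / 2)) := by
        rw [e1]
        apply Real.exp_le_exp.2
        have : x ^ 2 = |x| ^ 2 := (sq_abs x).symm
        rw [this]
        nlinarith
      have b2 : gg T U (t - y) ≤ Real.exp (-((|x| - 1) ^ 2 / 2)) := by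
        rw [e2]
        apply Real.exp_le_exp.2
        have c1 : |x| - 1 ≤ |x - τ| := by
          have := abs_sub_abs_le_abs_sub x τ
          linarith
        have c2 : (x - τ) ^ 2 = |x - τ| ^ 2 := (sq_abs _).symm
        rw [c2]
        have c3 : 0 ≤ |x| - 1 := by linarith
        nlinarith
      rw [abs_le]
      constructor
      · linarith [gg_pos T U (t - y)]
      · linarith [gg_pos T U t]
    have h2 : |gg T U (t - y) - gg T U t| ^ 2 ≤ Real.exp (-((|x| - 1) ^ 2 / 2)) ^ 2 := by gcongr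
    have h3 : Real.exp (-((|x| - 1) ^ 2 / 2)) ^ 2 ≤
        Real.exp (-(L ^ 2 / 16)) * Real.exp (-(x ^ 2 / 2)) := by
      rw [← Real.exp_nat_mul, ← Real.exp_add]
      apply Real.exp_le_exp.2
      push_cast
      have c4 : x ^ 2 = |x| ^ 2 := (sq_abs x).symm
      rw [c4]
      have c5 : L ^ 2 ≤ |x| ^ 2 := by gcongr
      nlinarith
    linarith

end

end Q80.SP
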