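import Pool.Agent.Q80.SP.Cma

set_option autoImplicit false

/-! The commutator is small for small shifts. -/

namespace Q80.SP

open MeasureTheory Filter Topology Complex Set
open Q97.MM
open scoped ENNReal

noncomputable section

variable (k : ℕ)

theorem hz_sq (t : ℝ) : ‖hz k t‖ ^ 2 = ‖riemannZeta (pt t)‖ ^ (2 * k) := by
  unfold hz
  rw [norm_pow, ← pow_mul, mul_comm]

theorem hz_sq_bd (t : ℝ) : ‖hz k t‖ ^ 2 ≤ 180 ^ (2 * k) * (1 + |t|) ^ (4 * k) := by
  have h1 := hz_bd k t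
  calc ‖hz k t‖ ^ 2 ≤ (180 ^ k * (1 + |t|) ^ (2 * k)) ^ 2 := by gcongr
    _ = _ := by rw [mul_pow, ← pow_mul, ← pow_mul]; ring_nf

/-- the moment -/
theorem M0_int {T U : ℝ} (h : Adm T U) : Integrable (fun t => ‖hz k t‖ ^ 2 * wt T U t) := by
  refine poly_wt_integrable (4 * k) (C₀ := 180 ^ (2 * k)) h.pos (by linarith [h.1]) h.le
    ((hz_cont k).norm.pow 2).aestronglyMeasurable fun y => ?_
  rw [abs_of_nonneg (by positivity)]
  exact hz_sq_bd k y

theorem M0_eq (T U : ℝ) : M0 k T U = ∫ t, ‖hz k t‖ ^ 2 * wt T U t := by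
  unfold M0 JJ
  refine integral_congr_ae (Eventually.of_forall fun t => ?_)
  simp only [hz_sq]
  rfl

/-- the wide Gaussian mean -/
theorem wide_int {T U : ℝ} (h : Adm T U) :
    Integrable (fun t => ‖hz k t‖ ^ 2 * Real.exp (-(((t - T) / U) ^ 2 / 2))) ∧
    ∫ t, ‖hz k t‖ ^ 2 * Real.exp (-(((t - T) / U) ^ 2 / 2)) ≤
      180 ^ (2 * k) * (1 + T) ^ (4 * k) * (U * KK (4 * k)) := by
  have hT0 : 0 ≤ T := by linarith [h.1]
  have hpt : ∀ t, ‖‖hz k t‖ ^ 2 * Real.exp (-(((t - T) / U) ^ 2 / 2))‖ ≤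
      180 ^ (2 * k) * (1 + T) ^ (4 * k) *
        ((1 + |(t - T) / U|) ^ (4 * k) * Real.exp (-(((t - T) / U) ^ 2 / 2))) := by
    intro t
    rw [Real.norm_of_nonneg (by positivity)]
    have h1 := hz_sq_bd k t
    have h2 := abs_le_scaled h.pos hT0 h.le t
    calc ‖hz k t‖ ^ 2 * Real.exp (-(((t - T) / U) ^ 2 / 2)) ≤
        (180 ^ (2 * k) * ((1 + T) * (1 + |(t - T) / U|)) ^ (4 * k)) *
          Real.exp (-(((t - T) / U) ^ 2 / 2)) := by
          apply mul_le_mul_of_nonneg_right _ (Real.exp_pos _).le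
          refine h1.trans ?_
          gcongr
      _ = _ := by rw [mul_pow]; ring
  have is := (scaled_integrable (4 * k) T h.pos).const_mul (180 ^ (2 * k) * (1 + T) ^ (4 * k))
  have hi : Integrable (fun t => ‖hz k t‖ ^ 2 * Real.exp (-(((t - T) / U) ^ 2 / 2))) :=
    is.mono' (((hz_cont k).norm.pow 2).mul (by fun_prop)).aestronglyMeasurable
      (Eventually.of_forall hpt)
  refine ⟨hi, ?_⟩
  have h3 := integral_mono hi is fun t => (Real.le_norm_self _).trans (hpt t)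
  rw [integral_const_mul, scaled_integral (4 * k) T h.pos] at h3
  exact h3

theorem Jn0 {T U : ℝ} : Jn k T U 0 = T ^ (2 * k) * M0 k T U / V0 k T U := by
  unfold Jn M0
  rw [zero_div, add_zero]

/-- comparison of the moment with the normalisation -/
theorem M0_V0 {η : ℝ} (hη : 0 < η) : ∀ᶠ T : ℝ in atTop, ∀ U : ℝ, Adm T U →
    |T ^ (2 * k) * M0 k T U - V0 k T U| ≤ η * V0 k T U := by
  filter_upwards [GJ k 0 hη] with T h U hA
  have h1 := h U hA
  rw [Gn_zero k hA, Jn0] at h1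
  have hV := V0_pos k hA
  have e : T ^ (2 * k) * M0 k T U - V0 k T U =
      -(1 - T ^ (2 * k) * M0 k T U / V0 k T U) * V0 k T U := by
    field_simp
    ring
  rw [e, abs_mul, abs_neg, abs_of_pos hV]
  exact mul_le_mul_of_nonneg_right h1 hV.le

theorem M0_le : ∀ᶠ T : ℝ in atTop, ∀ U : ℝ, Adm T U → T ^ (2 * k) * M0 k T U ≤ 2 * V0 k T U := by
  filter_upwards [M0_V0 k one_pos] with T h U hA
  have h1 := (abs_le.mp (h U hA)).2
  linarith

/-- the remainder from the polynomial factor -/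
def rr (T t : ℝ) : ℝ := ‖((T : ℂ) * I) ^ k - (pt t - 1) ^ k‖ ^ 2 * ‖hz k t‖ ^ 2

theorem rr_nonneg (T t : ℝ) : 0 ≤ rr k T t := by unfold rr; positivity

theorem pt_cont : Continuous pt := by unfold pt; fun_prop

theorem rr_cont (T : ℝ) : Continuous (rr k T) := by
  have h1 := hz_cont k
  have h2 := pt_cont
  unfold rr
  fun_prop

theorem pow_near {κ : ℝ} (hκ : 0 < κ) : ∃ d : ℝ, 0 < d ∧ ∀ z : ℂ, ‖z - 1‖ < d →
    ‖1 - z ^ k‖ ^ 2 ≤ κ := by
  have h1 : ContinuousAt (fun z : ℂ => ‖1 - z ^ k‖ ^ 2) 1 := by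
    have : Continuous (fun z : ℂ => ‖1 - z ^ k‖ ^ 2) := by fun_prop
    exact this.continuousAt
  have h0 : (fun z : ℂ => ‖1 - z ^ k‖ ^ 2) 1 = 0 := by simp
  obtain ⟨d, hd, hd'⟩ := Metric.continuousAt_iff.mp h1 κ hκ
  refine ⟨d, hd, fun z hz => ?_⟩
  have h2 := hd' (x := z) (by rwa [dist_eq_norm])
  have h0' : ‖(1 : ℂ) - 1 ^ k‖ ^ 2 = 0 := by simp
  rw [h0', Real.dist_eq, sub_zero] at h2
  exact (le_abs_self _).trans h2.le

theorem rr_bd {T : ℝ} (hT : 1 ≤ T) (t : ℝ) :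
    rr k T t ≤ 4 * T ^ (2 * k) * 180 ^ (2 * k) * (1 + |t|) ^ (6 * k) := by
  have h1 := hz_sq_bd k t
  have hT0 : 0 ≤ T := by linarith
  have h2 : ‖((T : ℂ) * I) ^ k - (pt t - 1) ^ k‖ ≤ T ^ k + (1 + |t|) ^ k := by
    refine (norm_sub_le _ _).trans ?_
    rw [norm_pow, norm_pow, norm_mul, Complex.norm_I, mul_one, Complex.norm_real,
      Real.norm_of_nonneg hT0]
    have := pt_sub_norm t
    gcongr
  have h3 : T ^ k + (1 + |t|) ^ k ≤ 2 * (T ^ k * (1 + |t|) ^ k) := by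
    have a1 : 1 ≤ T ^ k := one_le_pow₀ hT
    have a2 : 1 ≤ (1 + |t|) ^ k := one_le_pow₀ (by linarith [abs_nonneg t])
    nlinarith
  have h4 : ‖((T : ℂ) * I) ^ k - (pt t - 1) ^ k‖ ^ 2 ≤ (2 * (T ^ k * (1 + |t|) ^ k)) ^ 2 := by
    have := h2.trans h3
    gcongr
  unfold rr
  calc _ ≤ (2 * (T ^ k * (1 + |t|) ^ k)) ^ 2 * (180 ^ (2 * k) * (1 + |t|) ^ (4 * k)) := by gcongr
    _ = _ := by
        rw [mul_pow, mul_pow, ← pow_mul, ← pow_mul]
        have e : 6 * k = k * 2 + 4 * k := by ring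
        rw [e, pow_add]
        ring

theorem rr_small {η : ℝ} (hη : 0 < η) : ∀ᶠ T : ℝ in atTop, ∀ U : ℝ, Adm T U →
    Integrable (fun t => rr k T t * wt T U t) ∧ ∫ t, rr k T t * wt T U t ≤ η * V0 k T U := by
  obtain ⟨c, hc, hc'⟩ := V0_lower k
  obtain ⟨d, hd, hd'⟩ := pow_near k (show 0 < η / 4 by positivity)
  set ϑ : ℝ := d / 4 with hϑ
  have hϑ0 : 0 < ϑ := by positivity
  have hK := KK_nonneg (6 * k)
  have htail := (tail_tendsto (6 * k) hϑ0).const_mul (10 * 180 ^ (2 * k) * KK (6 * k) / c)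
  rw [mul_zero] at htail
  filter_upwards [htail.eventually (gt_mem_nhds (half_pos hη)), M0_le k,
    eventually_ge_atTop (max 3 (2 / d))] with T h1 h2 h3 U hA
  have hT3 : 3 ≤ T := (le_max_left _ _).trans h3
  have hTd : 2 / d ≤ T := (le_max_right _ _).trans h3
  have hT0 : 0 < T := by linarith
  have hV := V0_pos k hA
  have hU := hA.pos
  set p : ℝ → ℝ := fun t => T ^ (2 * k) * ‖hz k t‖ ^ 2 with hp
  set q : ℝ → ℝ := fun t => p t + rr k T t with hq
  have hpc : Continuous p := by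
    have := hz_cont k
    rw [hp]; fun_prop
  have hqc : Continuous q := hpc.add (rr_cont k T)
  have hp0 : ∀ t, 0 ≤ p t := fun t => by rw [hp]; positivity
  have hpb0 : ∀ t, p t ≤ T ^ (2 * k) * 180 ^ (2 * k) * (1 + |t|) ^ (6 * k) := by
    intro t
    have a1 := hz_sq_bd k t
    have a2 : (1 + |t|) ^ (4 * k) ≤ (1 + |t|) ^ (6 * k) :=
      pow_le_pow_right₀ (by linarith [abs_nonneg t]) (by omega)
    calc p t ≤ T ^ (2 * k) * (180 ^ (2 * k) * (1 + |t|) ^ (4 * k)) := by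
          rw [hp]; simp only; gcongr
      _ ≤ T ^ (2 * k) * (180 ^ (2 * k) * (1 + |t|) ^ (6 * k)) := by gcongr
      _ = _ := by ring
  have hpb : ∀ t, |p t| ≤ 5 * (T ^ (2 * k) * 180 ^ (2 * k)) * (1 + |t|) ^ (6 * k) := by
    intro t
    rw [abs_of_nonneg (hp0 t)]
    have a1 := hpb0 t
    have a2 : 0 ≤ T ^ (2 * k) * 180 ^ (2 * k) * (1 + |t|) ^ (6 * k) := by positivity
    linarith
  have hqb : ∀ t, |q t| ≤ 5 * (T ^ (2 * k) * 180 ^ (2 * k)) * (1 + |t|) ^ (6 * k) := by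
    intro t
    have a0 := rr_nonneg k T t
    rw [abs_of_nonneg (by rw [hq]; linarith [hp0 t])]
    have a1 := hpb0 t
    have a2 := rr_bd k (show 1 ≤ T by linarith) t
    rw [hq]
    simp only
    linarith
  have hpq : ∀ t, |t - T| ≤ ϑ * T → |p t - q t| ≤ η / 4 * p t := by
    intro t ht
    have e1 : p t - q t = -rr k T t := by rw [hq]; ring
    rw [e1, abs_neg, abs_of_nonneg (rr_nonneg k T t)]
    have hTI : (T : ℂ) * I ≠ 0 := mul_ne_zero (Complex.ofReal_ne_zero.2 hT0.ne') Complex.I_ne_zero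
    have hz1 : ‖(pt t - 1) / ((T : ℂ) * I) - 1‖ < d := by
      have e2 : (pt t - 1) / ((T : ℂ) * I) - 1 = (pt t - 1 - T * I) / ((T : ℂ) * I) := by
        rw [sub_div (pt t - 1), div_self hTI]
      have e3 : pt t - 1 - T * I = ((-(1 / 2) : ℝ) : ℂ) + ((t - T : ℝ) : ℂ) * I := by
        unfold pt; push_cast; ring
      have e4 : ‖pt t - 1 - T * I‖ ≤ 1 / 2 + |t - T| := by
        rw [e3]
        refine (norm_add_le _ _).trans ?_
        rw [norm_mul, Complex.norm_I, mul_one, Complex.norm_real, Complex.norm_real,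
          Real.norm_eq_abs, Real.norm_eq_abs]
        have : |(-(1 / 2) : ℝ)| = 1 / 2 := by rw [abs_neg, abs_of_pos (by norm_num)]
        rw [this]
      rw [e2, norm_div, norm_mul, Complex.norm_I, mul_one, Complex.norm_real,
        Real.norm_of_nonneg hT0.le, div_lt_iff₀ hT0]
      have e5 : 1 ≤ d * T / 2 := by
        rw [div_le_iff₀ hd] at hTd
        linarith
      have e6 : ϑ * T = d * T / 4 := by rw [hϑ]; ring
      linarith
    have h5 := hd' _ hz1
    have e7 : ‖((T : ℂ) * I) ^ k - (pt t - 1) ^ k‖ ^ 2 =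
        T ^ (2 * k) * ‖1 - ((pt t - 1) / ((T : ℂ) * I)) ^ k‖ ^ 2 := by
      have e8 : ((T : ℂ) * I) ^ k - (pt t - 1) ^ k =
          ((T : ℂ) * I) ^ k * (1 - ((pt t - 1) / ((T : ℂ) * I)) ^ k) := by
        rw [div_pow, mul_sub, mul_one, mul_div_cancel₀ _ (pow_ne_zero k hTI)]
      rw [e8, norm_mul, mul_pow, norm_pow, norm_mul, Complex.norm_I, mul_one, Complex.norm_real,
        Real.norm_of_nonneg hT0.le, ← pow_mul, mul_comm k 2]
    unfold rr
    rw [e7, hp]
    simp only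
    have e9 : 0 ≤ T ^ (2 * k) * ‖hz k t‖ ^ 2 := by positivity
    nlinarith
  have hloc := loc (6 * k) hT3 hU hA.2.2 hϑ0.le (show 0 ≤ η / 4 by positivity)
    hpc.aestronglyMeasurable hqc.aestronglyMeasurable hp0 hpb hqb hpq
  have ip := poly_wt_integrable (6 * k) hU hT0.le hA.le hpc.aestronglyMeasurable hpb
  have iq := poly_wt_integrable (6 * k) hU hT0.le hA.le hqc.aestronglyMeasurable hqb
  have ir : Integrable (fun t => rr k T t * wt T U t) := by
    refine (iq.sub ip).congr (Eventually.of_forall fun t => ?_)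
    simp only [Pi.sub_apply, hq]
    ring
  refine ⟨ir, ?_⟩
  have e1 : (∫ t, p t * wt T U t) - ∫ t, q t * wt T U t = -∫ t, rr k T t * wt T U t := by
    rw [← integral_sub ip iq, ← integral_neg]
    refine integral_congr_ae (Eventually.of_forall fun t => ?_)
    simp only [hq]
    ring
  have e2 : ∫ t, p t * wt T U t = T ^ (2 * k) * M0 k T U := by
    rw [M0_eq, ← integral_const_mul]
    refine integral_congr_ae (Eventually.of_forall fun t => ?_)
    simp only [hp]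
    ring
  rw [e1, abs_neg, e2] at hloc
  have h4 := (le_abs_self _).trans hloc
  have h5 := h2 U hA
  have h6 := hc' T U hA
  have h7 : 2 * (5 * (T ^ (2 * k) * 180 ^ (2 * k))) * (1 + T) ^ (6 * k) *
      Real.exp (-((ϑ * Real.log T) ^ 2 / 2)) * (U * KK (6 * k)) ≤ η / 2 * V0 k T U := by
    calc _ = (10 * 180 ^ (2 * k) * KK (6 * k) / c *
          ((1 + T) ^ (6 * k) * Real.exp (-((ϑ * Real.log T) ^ 2 / 2)))) *
            (c * (T ^ (2 * k) * U)) := by
          field_simp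
          ring
      _ ≤ η / 2 * V0 k T U := by
          apply mul_le_mul h1.le h6 (by positivity) (by positivity)
  have h8 : η / 4 * (T ^ (2 * k) * M0 k T U) ≤ η / 4 * (2 * V0 k T U) := by gcongr
  linarith

end

end Q80.SP
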