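import Pool.Agent.Q80.SP.Cmb

set_option autoImplicit false

/-! Bounds for the commutator. -/

namespace Q80.SP

open MeasureTheory Filter Topology Complex Set
open Q97.MM
open scoped ENNReal

noncomputable section

variable (k : ℕ)

/-- the kernel of the commutator -/
def Kf (T U t y : ℝ) : ℂ :=
  (((T : ℂ) * I) ^ k * (gg T U t : ℂ) - (pt (t + y) - 1) ^ k * (gg T U (t + y) : ℂ)) * hz k (t + y)

/-- its square mean -/
def IK (T U y : ℝ) : ℝ≥0∞ := ∫⁻ t, ‖Kf k T U t y‖ₑ ^ 2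

theorem Kf_cont (T U : ℝ) : Continuous (fun p : ℝ × ℝ => Kf k T U p.1 p.2) := by
  have h1 := hz_cont k
  have h2 := pt_cont
  have h3 := gg_cont T U
  unfold Kf
  fun_prop

theorem enorm_sq (z : ℂ) : ‖z‖ₑ ^ 2 = ENNReal.ofReal (‖z‖ ^ 2) := by
  rw [← ofReal_norm, ENNReal.ofReal_pow (norm_nonneg _)]

theorem IK_shift (T U y : ℝ) : IK k T U y = ∫⁻ t, ENNReal.ofReal
    (‖((T : ℂ) * I) ^ k * (gg T U (t - y) : ℂ) - (pt t - 1) ^ k * (gg T U t : ℂ)‖ ^ 2 *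
      ‖hz k t‖ ^ 2) := by
  unfold IK
  have h1 := lintegral_add_right_eq_self (μ := volume) (fun t => ENNReal.ofReal
    (‖((T : ℂ) * I) ^ k * (gg T U (t - y) : ℂ) - (pt t - 1) ^ k * (gg T U t : ℂ)‖ ^ 2 *
      ‖hz k t‖ ^ 2)) y
  rw [← h1]
  refine lintegral_congr fun t => ?_
  rw [enorm_sq, Kf, norm_mul, mul_pow, add_sub_cancel_right]

theorem diff_sq {T : ℝ} (hT : 0 ≤ T) (g1 g2 : ℝ) (t : ℝ) :
    ‖((T : ℂ) * I) ^ k * (g1 : ℂ) - (pt t - 1) ^ k * (g2 : ℂ)‖ ^ 2 ≤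
      2 * (T ^ (2 * k) * |g1 - g2| ^ 2) +
        2 * (‖((T : ℂ) * I) ^ k - (pt t - 1) ^ k‖ ^ 2 * g2 ^ 2) := by
  have e1 : ((T : ℂ) * I) ^ k * (g1 : ℂ) - (pt t - 1) ^ k * (g2 : ℂ) =
      ((T : ℂ) * I) ^ k * ((g1 - g2 : ℝ) : ℂ) +
        (((T : ℂ) * I) ^ k - (pt t - 1) ^ k) * (g2 : ℂ) := by
    push_cast; ring
  have e2 : ‖((T : ℂ) * I) ^ k * ((g1 - g2 : ℝ) : ℂ)‖ ^ 2 = T ^ (2 * k) * |g1 - g2| ^ 2 := by
    rw [norm_mul, mul_pow, norm_pow, norm_mul, Complex.norm_I, mul_one, Complex.norm_real,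
      Real.norm_of_nonneg hT, Complex.norm_real, Real.norm_eq_abs, ← pow_mul, mul_comm k 2]
  have e3 : ‖(((T : ℂ) * I) ^ k - (pt t - 1) ^ k) * (g2 : ℂ)‖ ^ 2 =
      ‖((T : ℂ) * I) ^ k - (pt t - 1) ^ k‖ ^ 2 * g2 ^ 2 := by
    rw [norm_mul, mul_pow, Complex.norm_real, Real.norm_eq_abs, sq_abs]
  rw [← e2, ← e3, e1]
  set a := ((T : ℂ) * I) ^ k * ((g1 - g2 : ℝ) : ℂ)
  set b := (((T : ℂ) * I) ^ k - (pt t - 1) ^ k) * (g2 : ℂ)
  have h1 := norm_add_le a b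
  have h2 := norm_nonneg (a + b)
  nlinarith [sq_nonneg (‖a‖ - ‖b‖), norm_nonneg a, norm_nonneg b]

theorem int3 {f g h : ℝ → ℝ} (hf : Integrable f) (hg : Integrable g) (hh : Integrable h)
    (a b c : ℝ) : ∫ t, (a * f t + b * g t + c * h t) =
      a * (∫ t, f t) + b * (∫ t, g t) + c * ∫ t, h t := by
  have h1 : ∫ t, (a * f t + b * g t + c * h t) = (∫ t, (a * f t + b * g t)) + ∫ t, c * h t :=
    integral_add ((hf.const_mul a).add (hg.const_mul b)) (hh.const_mul c)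
  have h2 : ∫ t, (a * f t + b * g t) = (∫ t, a * f t) + ∫ t, b * g t :=
    integral_add (hf.const_mul a) (hg.const_mul b)
  rw [h1, h2, integral_const_mul, integral_const_mul, integral_const_mul]

theorem IK_near {η : ℝ} (hη : 0 < η) : ∀ᶠ T : ℝ in atTop, ∀ U : ℝ, Adm T U →
    ∀ y : ℝ, |y| ≤ U / Real.log T ^ 3 → IK k T U y ≤ ENNReal.ofReal (η * V0 k T U) := by
  obtain ⟨c, hc, hc'⟩ := V0_lower k
  have hK := KK_nonneg (4 * k)
  have h8 : (0 : ℝ) < √(1 / 8) := by positivity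
  have htail := (tail_tendsto (4 * k) h8).const_mul (2 * 180 ^ (2 * k) * KK (4 * k) / c)
  rw [mul_zero] at htail
  have hL4 : Tendsto (fun T : ℝ => 1024 / Real.log T ^ 4) atTop (𝓝 0) := by
    apply Tendsto.const_div_atTop
    exact (tendsto_pow_atTop (by norm_num)).comp Real.tendsto_log_atTop
  have hη3 : 0 < η / 3 := by positivity
  filter_upwards [htail.eventually (gt_mem_nhds hη3), hL4.eventually (gt_mem_nhds hη3), M0_le k,
    rr_small k (show 0 < η / 6 by positivity), Real.tendsto_log_atTop.eventually_ge_atTop 4,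
    eventually_ge_atTop 3] with T h1 h2 h3 h4 h5 h6 U hA y hy
  have hT0 : 0 < T := by linarith
  have hV := V0_pos k hA
  have hU := hA.pos
  set L := Real.log T with hL
  obtain ⟨r1, r2⟩ := h4 U hA
  obtain ⟨w1, w2⟩ := wide_int k hA
  have m1 := M0_int k hA
  have m2 := M0_eq k T U
  have b1 := h3 U hA
  have b2 := hc' T U hA
  rw [IK_shift]
  set E := Real.exp (-(L ^ 2 / 16)) with hE
  have hbi : Integrable (fun t => 2 * (T ^ (2 * k) * (256 / L ^ 4)) * (‖hz k t‖ ^ 2 * wt T U t) +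
      2 * (T ^ (2 * k) * E) * (‖hz k t‖ ^ 2 * Real.exp (-(((t - T) / U) ^ 2 / 2))) +
      2 * (rr k T t * wt T U t)) := ((m1.const_mul _).add (w1.const_mul _)).add (r1.const_mul 2)
  have hbv : ∫ t, (2 * (T ^ (2 * k) * (256 / L ^ 4)) * (‖hz k t‖ ^ 2 * wt T U t) +
      2 * (T ^ (2 * k) * E) * (‖hz k t‖ ^ 2 * Real.exp (-(((t - T) / U) ^ 2 / 2))) +
      2 * (rr k T t * wt T U t)) =
      2 * (T ^ (2 * k) * (256 / L ^ 4)) * M0 k T U +
      2 * (T ^ (2 * k) * E) * (∫ t, ‖hz k t‖ ^ 2 * Real.exp (-(((t - T) / U) ^ 2 / 2))) +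
      2 * ∫ t, rr k T t * wt T U t := by
    rw [int3 m1 w1 r1, m2]
  have hnn : ∀ t, 0 ≤ 2 * (T ^ (2 * k) * (256 / L ^ 4)) * (‖hz k t‖ ^ 2 * wt T U t) +
      2 * (T ^ (2 * k) * E) * (‖hz k t‖ ^ 2 * Real.exp (-(((t - T) / U) ^ 2 / 2))) +
      2 * (rr k T t * wt T U t) := by
    intro t
    have q1 := wt_pos T U t
    have q2 := rr_nonneg k T t
    positivity
  have hmain : ∫⁻ t, ENNReal.ofReal
      (‖((T : ℂ) * I) ^ k * (gg T U (t - y) : ℂ) - (pt t - 1) ^ k * (gg T U t : ℂ)‖ ^ 2 *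
        ‖hz k t‖ ^ 2) ≤ ENNReal.ofReal (∫ t, (2 * (T ^ (2 * k) * (256 / L ^ 4)) *
        (‖hz k t‖ ^ 2 * wt T U t) +
      2 * (T ^ (2 * k) * E) * (‖hz k t‖ ^ 2 * Real.exp (-(((t - T) / U) ^ 2 / 2))) +
      2 * (rr k T t * wt T U t))) := by
    rw [ofReal_integral_eq_lintegral_ofReal hbi (Eventually.of_forall hnn)]
    refine lintegral_mono fun t => ENNReal.ofReal_le_ofReal ?_
    have q1 := diff_sq k hT0.le (gg T U (t - y)) (gg T U t) t
    have q2 := gg_diff (T := T) hU h5 hy t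
    rw [gg_sq] at q1
    have q3 : 0 ≤ ‖hz k t‖ ^ 2 := by positivity
    calc _ ≤ (2 * (T ^ (2 * k) * |gg T U (t - y) - gg T U t| ^ 2) +
        2 * (‖((T : ℂ) * I) ^ k - (pt t - 1) ^ k‖ ^ 2 * wt T U t)) * ‖hz k t‖ ^ 2 := by gcongr
      _ ≤ (2 * (T ^ (2 * k) * (256 / L ^ 4 * wt T U t +
          E * Real.exp (-(((t - T) / U) ^ 2 / 2)))) +
        2 * (‖((T : ℂ) * I) ^ k - (pt t - 1) ^ k‖ ^ 2 * wt T U t)) * ‖hz k t‖ ^ 2 := by
          gcongr
      _ = _ := by unfold rr; ring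
  refine hmain.trans (ENNReal.ofReal_le_ofReal ?_)
  rw [hbv]
  have c1 : 2 * (T ^ (2 * k) * (256 / L ^ 4)) * M0 k T U ≤ η / 3 * V0 k T U := by
    calc 2 * (T ^ (2 * k) * (256 / L ^ 4)) * M0 k T U =
        512 / L ^ 4 * (T ^ (2 * k) * M0 k T U) := by ring
      _ ≤ 512 / L ^ 4 * (2 * V0 k T U) := by gcongr
      _ = 1024 / L ^ 4 * V0 k T U := by ring
      _ ≤ η / 3 * V0 k T U := by gcongr
  have c2 : 2 * (T ^ (2 * k) * E) *
      (∫ t, ‖hz k t‖ ^ 2 * Real.exp (-(((t - T) / U) ^ 2 / 2))) ≤ η / 3 * V0 k T U := by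
    have e8 : (√(1 / 8) * L) ^ 2 / 2 = L ^ 2 / 16 := by
      rw [mul_pow, Real.sq_sqrt (by norm_num)]
      ring
    rw [e8] at h1
    calc 2 * (T ^ (2 * k) * E) * (∫ t, ‖hz k t‖ ^ 2 * Real.exp (-(((t - T) / U) ^ 2 / 2))) ≤
        2 * (T ^ (2 * k) * E) * (180 ^ (2 * k) * (1 + T) ^ (4 * k) * (U * KK (4 * k))) := by
          gcongr
      _ = (2 * 180 ^ (2 * k) * KK (4 * k) / c * ((1 + T) ^ (4 * k) * E)) *
            (c * (T ^ (2 * k) * U)) := by
          field_simp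
      _ ≤ η / 3 * V0 k T U := by
          apply mul_le_mul h1.le b2 (by positivity) (by positivity)
  linarith

theorem poly_wt_bound (A : ℕ) {T U : ℝ} (h : Adm T U) :
    Integrable (fun t => (1 + |t|) ^ A * wt T U t) ∧
      ∫ t, (1 + |t|) ^ A * wt T U t ≤ (1 + T) ^ A * (U * KK A) := by
  have hT0 : 0 ≤ T := by linarith [h.1]
  have hi : Integrable (fun t => (1 + |t|) ^ A * wt T U t) :=
    poly_wt_integrable A (C₀ := 1) h.pos hT0 h.le (by fun_prop) fun y => by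
      rw [abs_of_nonneg (by positivity), one_mul]
  refine ⟨hi, ?_⟩
  have is := (scaled_integrable A T h.pos).const_mul ((1 + T) ^ A)
  have h3 := integral_mono hi is fun t => ?_
  · rw [integral_const_mul, scaled_integral A T h.pos] at h3
    exact h3
  · have h2 := abs_le_scaled h.pos hT0 h.le t
    have h4 : wt T U t ≤ Real.exp (-(((t - T) / U) ^ 2 / 2)) := by
      unfold wt
      apply Real.exp_le_exp.2
      nlinarith [sq_nonneg ((t - T) / U)]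
    calc (1 + |t|) ^ A * wt T U t ≤
        ((1 + T) * (1 + |(t - T) / U|)) ^ A * Real.exp (-(((t - T) / U) ^ 2 / 2)) := by
          apply mul_le_mul _ h4 (wt_pos _ _ _).le (by positivity)
          gcongr
      _ = _ := by rw [mul_pow]; ring

theorem IK_crude : ∃ C : ℝ, 0 ≤ C ∧ ∀ T U : ℝ, Adm T U → ∀ y : ℝ,
    IK k T U y ≤ ENNReal.ofReal (C * (1 + T) ^ (8 * k + 1) * (1 + |y|) ^ (4 * k)) := by
  have hK := KK_nonneg (4 * k)
  have hK' := KK_nonneg (6 * k)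
  refine ⟨2 * 180 ^ (2 * k) * (KK (4 * k) + KK (6 * k)), by positivity, fun T U hA y => ?_⟩
  have hT3 := hA.1
  have hT0 : 0 < T := by linarith
  have hU := hA.pos
  obtain ⟨p1, p2⟩ := poly_wt_bound (4 * k) hA
  obtain ⟨s1, s2⟩ := poly_wt_bound (6 * k) hA
  set a : ℝ := 2 * T ^ (2 * k) * (180 ^ (2 * k) * (1 + |y|) ^ (4 * k)) with ha
  have ha0 : 0 ≤ a := by positivity
  have hf1 : ∀ t : ℝ, 0 ≤ a * ((1 + |t|) ^ (4 * k) * wt T U t) := fun t =>
    mul_nonneg ha0 (mul_nonneg (by positivity) (wt_pos _ _ _).le)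
  have hf2 : ∀ t : ℝ, 0 ≤ 2 * 180 ^ (2 * k) * ((1 + |t|) ^ (6 * k) * wt T U t) := fun t =>
    mul_nonneg (by positivity) (mul_nonneg (by positivity) (wt_pos _ _ _).le)
  have hpt : ∀ t, ‖Kf k T U t y‖ₑ ^ 2 ≤ ENNReal.ofReal (a * ((1 + |t|) ^ (4 * k) * wt T U t)) +
      ENNReal.ofReal (2 * 180 ^ (2 * k) * ((1 + |t + y|) ^ (6 * k) * wt T U (t + y))) := by
    intro t
    rw [enorm_sq, ← ENNReal.ofReal_add (hf1 t) (hf2 (t + y))]
    apply ENNReal.ofReal_le_ofReal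
    have q1 := hz_sq_bd k (t + y)
    have q2 := pt_sub_norm (t + y)
    have e1 : ‖Kf k T U t y‖ ^ 2 ≤ 2 * ((T ^ k * gg T U t) ^ 2 * ‖hz k (t + y)‖ ^ 2) +
        2 * (((1 + |t + y|) ^ k * gg T U (t + y)) ^ 2 * ‖hz k (t + y)‖ ^ 2) := by
      unfold Kf
      rw [norm_mul, mul_pow, ← mul_assoc, ← mul_assoc, ← add_mul]
      apply mul_le_mul_of_nonneg_right _ (by positivity)
      have n1 : ‖((T : ℂ) * I) ^ k * (gg T U t : ℂ)‖ = T ^ k * gg T U t := by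
        rw [norm_mul, norm_pow, norm_mul, Complex.norm_I, mul_one, Complex.norm_real,
          Real.norm_of_nonneg hT0.le, Complex.norm_real, Real.norm_of_nonneg (gg_pos _ _ _).le]
      have n2 : ‖(pt (t + y) - 1) ^ k * (gg T U (t + y) : ℂ)‖ ≤
          (1 + |t + y|) ^ k * gg T U (t + y) := by
        rw [norm_mul, norm_pow, Complex.norm_real, Real.norm_of_nonneg (gg_pos _ _ _).le]
        have := (gg_pos T U (t + y)).le
        gcongr
      have n3 := norm_sub_le (((T : ℂ) * I) ^ k * (gg T U t : ℂ))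
        ((pt (t + y) - 1) ^ k * (gg T U (t + y) : ℂ))
      rw [n1] at n3
      have n4 : ‖((T : ℂ) * I) ^ k * (gg T U t : ℂ) - (pt (t + y) - 1) ^ k *
          (gg T U (t + y) : ℂ)‖ ≤ T ^ k * gg T U t + (1 + |t + y|) ^ k * gg T U (t + y) := by
        linarith
      have n5 := norm_nonneg (((T : ℂ) * I) ^ k * (gg T U t : ℂ) - (pt (t + y) - 1) ^ k *
          (gg T U (t + y) : ℂ))
      generalize T ^ k * gg T U t = A at *
      generalize (1 + |t + y|) ^ k * gg T U (t + y) = B at *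
      nlinarith [sq_nonneg (A - B)]
    have e2 : (1 + |t + y|) ^ (4 * k) ≤ (1 + |t|) ^ (4 * k) * (1 + |y|) ^ (4 * k) := by
      rw [← mul_pow]
      have := abs_add_le t y
      gcongr
      nlinarith [abs_nonneg t, abs_nonneg y, mul_nonneg (abs_nonneg t) (abs_nonneg y)]
    have e3 : 2 * ((T ^ k * gg T U t) ^ 2 * ‖hz k (t + y)‖ ^ 2) ≤
        a * ((1 + |t|) ^ (4 * k) * wt T U t) := by
      rw [mul_pow, gg_sq, ← pow_mul, mul_comm k 2, ha]
      have hw := (wt_pos T U t).le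
      calc 2 * (T ^ (2 * k) * wt T U t * ‖hz k (t + y)‖ ^ 2) ≤
          2 * (T ^ (2 * k) * wt T U t *
            (180 ^ (2 * k) * ((1 + |t|) ^ (4 * k) * (1 + |y|) ^ (4 * k)))) := by
            have := q1.trans (mul_le_mul_of_nonneg_left e2 (by positivity : (0:ℝ) ≤ 180 ^ (2 * k)))
            gcongr
        _ = _ := by ring
    have e4 : 2 * (((1 + |t + y|) ^ k * gg T U (t + y)) ^ 2 * ‖hz k (t + y)‖ ^ 2) ≤
        2 * 180 ^ (2 * k) * ((1 + |t + y|) ^ (6 * k) * wt T U (t + y)) := by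
      rw [mul_pow, gg_sq, ← pow_mul, mul_comm k 2]
      have hw := (wt_pos T U (t + y)).le
      calc 2 * ((1 + |t + y|) ^ (2 * k) * wt T U (t + y) * ‖hz k (t + y)‖ ^ 2) ≤
          2 * ((1 + |t + y|) ^ (2 * k) * wt T U (t + y) *
            (180 ^ (2 * k) * (1 + |t + y|) ^ (4 * k))) := by gcongr
        _ = _ := by
          have e : 6 * k = 2 * k + 4 * k := by ring
          rw [e, pow_add]
          ring
    linarith
  have hmeas : Measurable (fun t : ℝ => ENNReal.ofReal (a * ((1 + |t|) ^ (4 * k) * wt T U t))) := by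
    have : Continuous (fun t : ℝ => a * ((1 + |t|) ^ (4 * k) * wt T U t)) := by
      unfold wt; fun_prop
    exact this.measurable.ennreal_ofReal
  have h1 : IK k T U y ≤ ENNReal.ofReal (∫ t, a * ((1 + |t|) ^ (4 * k) * wt T U t)) +
      ENNReal.ofReal (∫ t, 2 * 180 ^ (2 * k) * ((1 + |t|) ^ (6 * k) * wt T U t)) := by
    unfold IK
    refine (lintegral_mono hpt).trans ?_
    rw [lintegral_add_left hmeas]
    have h2 := lintegral_add_right_eq_self (μ := volume) (fun t : ℝ => ENNReal.ofReal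
      (2 * 180 ^ (2 * k) * ((1 + |t|) ^ (6 * k) * wt T U t))) y
    rw [h2, ← ofReal_integral_eq_lintegral_ofReal (p1.const_mul a) (Eventually.of_forall hf1),
      ← ofReal_integral_eq_lintegral_ofReal (s1.const_mul _) (Eventually.of_forall hf2)]
  refine h1.trans ?_
  have i1 : 0 ≤ ∫ t, a * ((1 + |t|) ^ (4 * k) * wt T U t) := integral_nonneg hf1
  have i2 : 0 ≤ ∫ t, 2 * 180 ^ (2 * k) * ((1 + |t|) ^ (6 * k) * wt T U t) := integral_nonneg hf2
  rw [← ENNReal.ofReal_add i1 i2]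
  apply ENNReal.ofReal_le_ofReal
  rw [integral_const_mul, integral_const_mul]
  have hT1 : 1 ≤ 1 + T := by linarith
  have hy1 : 1 ≤ (1 + |y|) ^ (4 * k) := one_le_pow₀ (by linarith [abs_nonneg y])
  have hUT : U ≤ 1 + T := by linarith [hA.le]
  have g1 : a * ∫ t, (1 + |t|) ^ (4 * k) * wt T U t ≤
      2 * 180 ^ (2 * k) * KK (4 * k) * (1 + T) ^ (8 * k + 1) * (1 + |y|) ^ (4 * k) := by
    have hTk : T ^ (2 * k) ≤ (1 + T) ^ (2 * k) := by gcongr; linarith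
    have hpp : (1 + T) ^ (2 * k) * (1 + T) ^ (4 * k) * (1 + T) ≤ (1 + T) ^ (8 * k + 1) := by
      rw [← pow_add, ← pow_succ]
      exact pow_le_pow_right₀ hT1 (by omega)
    calc a * ∫ t, (1 + |t|) ^ (4 * k) * wt T U t ≤ a * ((1 + T) ^ (4 * k) * (U * KK (4 * k))) := by
          gcongr
      _ = 2 * 180 ^ (2 * k) * KK (4 * k) * (T ^ (2 * k) * (1 + T) ^ (4 * k) * U) *
            (1 + |y|) ^ (4 * k) := by rw [ha]; ring
      _ ≤ 2 * 180 ^ (2 * k) * KK (4 * k) * ((1 + T) ^ (2 * k) * (1 + T) ^ (4 * k) * (1 + T)) *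
            (1 + |y|) ^ (4 * k) := by gcongr
      _ ≤ _ := by gcongr
  have g2 : 2 * 180 ^ (2 * k) * ∫ t, (1 + |t|) ^ (6 * k) * wt T U t ≤
      2 * 180 ^ (2 * k) * KK (6 * k) * (1 + T) ^ (8 * k + 1) * (1 + |y|) ^ (4 * k) := by
    have hpp : (1 + T) ^ (6 * k) * (1 + T) ≤ (1 + T) ^ (8 * k + 1) := by
      rw [← pow_succ]
      exact pow_le_pow_right₀ hT1 (by omega)
    calc 2 * 180 ^ (2 * k) * ∫ t, (1 + |t|) ^ (6 * k) * wt T U t ≤
          2 * 180 ^ (2 * k) * ((1 + T) ^ (6 * k) * (U * KK (6 * k))) := by gcongr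
      _ = 2 * 180 ^ (2 * k) * KK (6 * k) * ((1 + T) ^ (6 * k) * U) * 1 := by ring
      _ ≤ 2 * 180 ^ (2 * k) * KK (6 * k) * ((1 + T) ^ (6 * k) * (1 + T)) *
            (1 + |y|) ^ (4 * k) := by gcongr
      _ ≤ _ := by gcongr
  linarith

end

end Q80.SP
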