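import Pool.Agent.Q80.SP.Cmc

set_option autoImplicit false

/-! The commutator is small. -/

namespace Q80.SP

open MeasureTheory Filter Topology Complex Set
open Pool.Agent.W182.KO (P TF J2 J2_nonneg)
open Q97.MM
open scoped ENNReal

noncomputable section

variable (k : ℕ) {ξ1 : ℝ} {ψ : ℝ → ℂ}

/-- a power saving from the length of the window -/
theorem pow_save (B : ℕ) {ε : ℝ} (hε : 0 < ε) : ∃ m : ℕ, ∀ C κ : ℝ, 0 < κ →
    ∀ᶠ T : ℝ in atTop,
    ∀ U : ℝ, T ^ ε ≤ U → C * (1 + T) ^ B / (1 + U / Real.log T ^ 2) ^ m ≤ κ := by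
  obtain ⟨m, hm⟩ := exists_nat_ge (2 * (B + 1) / ε)
  refine ⟨m, fun C κ hκ => ?_⟩
  have h1 := (isLittleO_log_rpow_atTop (show 0 < ε / 4 by positivity)).def (show (0:ℝ) < 1 by norm_num)
  have h2 : Tendsto (fun T : ℝ => |C| * 2 ^ B * T⁻¹) atTop (𝓝 0) := by
    simpa using tendsto_inv_atTop_zero.const_mul (|C| * 2 ^ B)
  filter_upwards [h1, h2.eventually (gt_mem_nhds hκ), eventually_ge_atTop 3] with T h1 h2 h3 U hU
  have hT0 : 0 < T := by linarith
  have hL : 1 ≤ Real.log T := by
    have h1 : Real.exp 1 ≤ T := by linarith [Real.exp_one_lt_d9]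
    have h2 := Real.log_le_log (Real.exp_pos 1) h1
    rwa [Real.log_exp] at h2
  have hL0 : 0 < Real.log T := by linarith
  rw [one_mul, Real.norm_of_nonneg hL0.le, Real.norm_of_nonneg (by positivity)] at h1
  have e1 : Real.log T ^ 2 ≤ T ^ (ε / 2) := by
    calc Real.log T ^ 2 ≤ (T ^ (ε / 4)) ^ 2 := by gcongr
      _ = T ^ (ε / 2) := by
        rw [← Real.rpow_natCast, ← Real.rpow_mul hT0.le]
        congr 1
        push_cast
        ring
  have e2 : T ^ (ε / 2) ≤ 1 + U / Real.log T ^ 2 := by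
    have e3 : T ^ (ε / 2) ≤ U / Real.log T ^ 2 := by
      rw [le_div_iff₀ (by positivity)]
      calc T ^ (ε / 2) * Real.log T ^ 2 ≤ T ^ (ε / 2) * T ^ (ε / 2) := by gcongr
        _ = T ^ ε := by rw [← Real.rpow_add hT0]; congr 1; ring
        _ ≤ U := hU
    linarith
  have e4 : T ^ (B + 1) ≤ (1 + U / Real.log T ^ 2) ^ m := by
    have e5 : (T ^ (ε / 2)) ^ m ≤ (1 + U / Real.log T ^ 2) ^ m := by
      have : 0 ≤ T ^ (ε / 2) := by positivity
      gcongr
    refine le_trans ?_ e5
    rw [← Real.rpow_natCast (T ^ (ε / 2)), ← Real.rpow_mul hT0.le, ← Real.rpow_natCast T]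
    apply Real.rpow_le_rpow_of_exponent_le (by linarith)
    rw [div_le_iff₀ hε] at hm
    push_cast
    linarith
  have hp : 0 < (1 + U / Real.log T ^ 2) ^ m := lt_of_lt_of_le (by positivity) e4
  rw [div_le_iff₀ hp]
  calc C * (1 + T) ^ B ≤ |C| * (2 * T) ^ B := by
        apply mul_le_mul (le_abs_self _) _ (by positivity) (abs_nonneg _)
        gcongr
        linarith
    _ = (|C| * 2 ^ B * T⁻¹) * T ^ (B + 1) := by
        rw [mul_pow, pow_succ]
        field_simp
    _ ≤ κ * (1 + U / Real.log T ^ 2) ^ m := by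
        apply mul_le_mul h2.le e4 (by positivity) hκ.le

theorem comm_small (h : TF ξ1 ψ) {ε η : ℝ} (hε : 0 < ε) (hη : 0 < η) :
    ∀ᶠ T : ℝ in atTop, ∀ U : ℝ, Adm T U → T ^ ε ≤ U →
      ∫⁻ t, ‖∫ y, kr ψ (Real.log T) y * Kf k T U t y‖ₑ ^ 2 ≤ ENNReal.ofReal (η * V0 k T U) := by
  obtain ⟨c, hc, hc'⟩ := V0_lower k
  obtain ⟨C1, hC1, hm1⟩ := kr_mass h
  obtain ⟨C2, hC2, hcr⟩ := IK_crude k
  set κ : ℝ := η * c / (2 * (C1 + 1)) with hκ
  have hκ0 : 0 < κ := by positivity
  obtain ⟨m, hm⟩ := pow_save (8 * k + 1) hε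
  obtain ⟨C3, hC3, hb⟩ := kr_bd h (4 * k + 2 + m)
  have hJ := J2_nonneg
  set η1 : ℝ := η / (2 * (C1 + 1) * (C1 + 1)) with hη1
  have hη10 : 0 < η1 := by positivity
  filter_upwards [hm (C3 * C2 * J2) κ hκ0, IK_near k hη10,
    Real.tendsto_log_atTop.eventually_ge_atTop 1, eventually_ge_atTop 3] with T h1 h2 h3 h4 U hA hU
  set L := Real.log T with hL
  have hL0 : 0 < L := by linarith
  have hT0 : 0 < T := by linarith
  have hV := V0_pos k hA
  have hUp := hA.pos
  set D : ℝ := (1 + U / L ^ 2) ^ m with hD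
  have hD0 : 0 < D := by positivity
  set G : ℝ := C3 * C2 * (1 + T) ^ (8 * k + 1) / D with hG
  have hG0 : 0 ≤ G := by positivity
  have hkm : ∫⁻ y, ‖kr ψ L y‖ₑ ≤ ENNReal.ofReal (C1 + 1) := by
    have e1 : ∫⁻ y, ‖kr ψ L y‖ₑ = ENNReal.ofReal (∫ y, ‖kr ψ L y‖) := by
      rw [ofReal_integral_eq_lintegral_ofReal (kr_int h hL0).norm
        (Eventually.of_forall fun y => norm_nonneg _)]
      exact lintegral_congr fun y => (ofReal_norm _).symm
    rw [e1]
    apply ENNReal.ofReal_le_ofReal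
    linarith [hm1 L hL0]
  have hpt : ∀ y, ‖kr ψ L y‖ₑ * IK k T U y ≤ ‖kr ψ L y‖ₑ * ENNReal.ofReal (η1 * V0 k T U) +
      ENNReal.ofReal (G * (L / (1 + L * |y|) ^ 2)) := by
    intro y
    by_cases hy : |y| ≤ U / L ^ 3
    · exact (mul_le_mul' le_rfl (h2 U hA y hy)).trans le_self_add
    · push Not at hy
      refine le_trans ?_ le_add_self
      have q1 := hcr T U hA y
      have q2 := hb L hL0 y
      have hy0 := abs_nonneg y
      calc ‖kr ψ L y‖ₑ * IK k T U y ≤ ENNReal.ofReal (C3 * (L / (1 + L * |y|) ^ (4 * k + 2 + m))) *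
            ENNReal.ofReal (C2 * (1 + T) ^ (8 * k + 1) * (1 + |y|) ^ (4 * k)) := by
            refine mul_le_mul' ?_ q1
            rw [← ofReal_norm]
            exact ENNReal.ofReal_le_ofReal q2
        _ = ENNReal.ofReal (C3 * (L / (1 + L * |y|) ^ (4 * k + 2 + m)) *
            (C2 * (1 + T) ^ (8 * k + 1) * (1 + |y|) ^ (4 * k))) :=
            (ENNReal.ofReal_mul (by positivity)).symm
        _ ≤ _ := by
            apply ENNReal.ofReal_le_ofReal
            have a1 : (1 + |y|) ^ (4 * k) ≤ (1 + L * |y|) ^ (4 * k) := by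
              gcongr
              nlinarith
            have a2 : D ≤ (1 + L * |y|) ^ m := by
              rw [hD]
              have a3 : U / L ^ 2 ≤ L * |y| := by
                have : U / L ^ 2 = L * (U / L ^ 3) := by field_simp
                rw [this]
                exact mul_le_mul_of_nonneg_left hy.le hL0.le
              gcongr
            have b0 : 0 < 1 + L * |y| := by positivity
            have a4 : (1 + |y|) ^ (4 * k) / (1 + L * |y|) ^ (4 * k + 2 + m) ≤
                1 / (1 + L * |y|) ^ 2 * (1 / D) := by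
              rw [div_le_iff₀ (by positivity)]
              have a5 : 1 / (1 + L * |y|) ^ 2 * (1 / D) * (1 + L * |y|) ^ (4 * k + 2 + m) =
                  (1 + L * |y|) ^ (4 * k) * ((1 + L * |y|) ^ m / D) := by
                rw [pow_add, pow_add]
                field_simp
              rw [a5]
              have a6 : 1 ≤ (1 + L * |y|) ^ m / D := by rwa [one_le_div hD0]
              calc (1 + |y|) ^ (4 * k) ≤ (1 + L * |y|) ^ (4 * k) * 1 := by rwa [mul_one]
                _ ≤ _ := mul_le_mul_of_nonneg_left a6 (by positivity)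
            calc C3 * (L / (1 + L * |y|) ^ (4 * k + 2 + m)) *
                  (C2 * (1 + T) ^ (8 * k + 1) * (1 + |y|) ^ (4 * k)) =
                (C3 * C2 * (1 + T) ^ (8 * k + 1) * L) *
                  ((1 + |y|) ^ (4 * k) / (1 + L * |y|) ^ (4 * k + 2 + m)) := by ring
              _ ≤ (C3 * C2 * (1 + T) ^ (8 * k + 1) * L) * (1 / (1 + L * |y|) ^ 2 * (1 / D)) := by
                  gcongr
              _ = _ := by rw [hG]; ring
  refine (avg_sq (kr_cont h L) (Kf_cont k T U)).trans ?_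
  have hmul : ∫⁻ y, ‖kr ψ L y‖ₑ * ∫⁻ t, ‖Kf k T U t y‖ₑ ^ 2 ≤
      ENNReal.ofReal (C1 + 1) * ENNReal.ofReal (η1 * V0 k T U) + ENNReal.ofReal (G * J2) := by
    refine (lintegral_mono hpt).trans ?_
    have hmeas : Measurable (fun y => ENNReal.ofReal (G * (L / (1 + L * |y|) ^ 2))) := by
      fun_prop
    rw [lintegral_add_right _ hmeas, lintegral_mul_const' _ _ ENNReal.ofReal_ne_top]
    refine add_le_add (mul_le_mul' hkm le_rfl) (le_of_eq ?_)
    rw [← ofReal_integral_eq_lintegral_ofReal ((sc_int hL0).const_mul G)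
      (Eventually.of_forall fun y => by positivity), integral_const_mul, sc_val hL0]
  calc (∫⁻ y, ‖kr ψ L y‖ₑ) * ∫⁻ y, ‖kr ψ L y‖ₑ * ∫⁻ t, ‖Kf k T U t y‖ₑ ^ 2 ≤
      ENNReal.ofReal (C1 + 1) * (ENNReal.ofReal (C1 + 1) * ENNReal.ofReal (η1 * V0 k T U) +
        ENNReal.ofReal (G * J2)) := mul_le_mul' hkm hmul
    _ = ENNReal.ofReal ((C1 + 1) * ((C1 + 1) * (η1 * V0 k T U) + G * J2)) := by
        rw [← ENNReal.ofReal_mul (by positivity), ← ENNReal.ofReal_add (by positivity)
          (by positivity), ← ENNReal.ofReal_mul (by positivity)]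
    _ ≤ ENNReal.ofReal (η * V0 k T U) := by
        apply ENNReal.ofReal_le_ofReal
        have c1 := h1 U hU
        have c2 : G * J2 ≤ κ := by
          refine le_trans (le_of_eq ?_) c1
          rw [hG]
          ring
        have c3 := hc' T U hA
        have c4 : 1 ≤ T ^ (2 * k) * U := by
          have : 1 ≤ T ^ (2 * k) := one_le_pow₀ (by linarith)
          nlinarith [hA.2.1]
        have c5 : c ≤ V0 k T U := by nlinarith
        have c6 : (C1 + 1) * ((C1 + 1) * (η1 * V0 k T U)) = η / 2 * V0 k T U := by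
          rw [hη1]
          field_simp
        have c7 : (C1 + 1) * (G * J2) ≤ η / 2 * V0 k T U := by
          calc (C1 + 1) * (G * J2) ≤ (C1 + 1) * κ := by gcongr
            _ = η / 2 * c := by rw [hκ]; field_simp
            _ ≤ η / 2 * V0 k T U := by gcongr
        rw [mul_add]
        linarith

end

end Q80.SP
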