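import Pool.Agent.Q80.SP.Ker
import Pool.Agent.W182.KO.Diag

set_option autoImplicit false

/-! The smoothed `k`-th power of zeta is a Dirichlet polynomial. -/

namespace Q80.SP

open MeasureTheory Filter Topology Complex Set FourierTransform
open Pool.Agent.W182.KO (P TF P_bound P_diff P_inv one_add_inv_sq_int J2 J2_nonneg tau ZP I0 K0 DF
  dk tau_ptw ZP_DF ZP_DD shift tau_dk)
open scoped ContDiff Convolution

noncomputable section

/-- the abscissa `2` -/
def c2 : ℝ := 1 + 4 * (1 / 4)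

theorem c2_eq : c2 = 2 := by unfold c2; norm_num

/-- the Dirichlet polynomial -/
def DP (k : ℕ) (ψ : ℝ → ℂ) (L t : ℝ) : ℂ :=
  ∑' n : ℕ, (dk k n : ℂ) * ψ (Real.log n / L) * (n : ℂ) ^ (-(1 / 2 + t * I))

variable {ξ1 : ℝ} {ψ : ℝ → ℂ}

theorem P_line_int (h : TF ξ1 ψ) {σ L : ℝ} (hσ : 0 ≤ σ) (hL : 0 < L) :
    Integrable (fun y : ℝ => P ψ (σ + L * y * I)) := by
  obtain ⟨C, hC, hb⟩ := P_bound h 2
  have hP : Continuous (P ψ) := (P_diff h).continuous
  refine (((sc_int hL).const_mul (C * Real.exp (ξ1 * σ) / L))).mono'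
    (hP.comp (by fun_prop)).aestronglyMeasurable (Eventually.of_forall fun y => ?_)
  have h1 := hb (σ + L * y * I) (by simpa using hσ)
  have e1 : ((σ : ℂ) + L * y * I).re = σ := by simp
  rw [e1] at h1
  have e2 : L * |y| ≤ ‖(σ : ℂ) + L * y * I‖ := by
    refine le_trans ?_ (Complex.abs_im_le_norm _)
    have : ((σ : ℂ) + L * y * I).im = L * y := by simp
    rw [this, abs_mul, abs_of_pos hL]
  have h2 : ‖P ψ (σ + L * y * I)‖ * (1 + L * |y|) ^ 2 ≤ C * Real.exp (ξ1 * σ) := by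
    refine le_trans ?_ h1
    gcongr
  have h3 : ‖P ψ (σ + L * y * I)‖ ≤ C * Real.exp (ξ1 * σ) / (1 + L * |y|) ^ 2 := by
    rwa [le_div_iff₀ (by positivity)]
  refine h3.trans (le_of_eq ?_)
  field_simp

theorem ZP_zero' (k : ℕ) (s : ℂ) : ZP (fun _ : Fin k => (0:ℝ)) s = riemannZeta s ^ k := by
  simp [ZP]

theorem tau_zero' (k n : ℕ) : tau (fun j : Fin k => -(((0 : ℝ) : ℂ) * I)) n = dk k n := by
  rw [← tau_dk]
  congr 1
  funext j
  simp

theorem dk_bd (k : ℕ) : ∃ D : ℝ, 0 ≤ D ∧ ∀ n : ℕ, (dk k n : ℝ) ≤ D * (n : ℝ) ^ (1 / 4 : ℝ) := by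
  obtain ⟨D, hD0, hD⟩ := tau_ptw k (show (0 : ℝ) < 1 / 4 by norm_num)
  refine ⟨D, hD0, fun n => ?_⟩
  have := hD (fun _ => 0) n
  rw [tau_zero'] at this
  simpa using this

theorem dk_zero (k : ℕ) : dk k 0 = 0 := by
  simp [dk]

theorem DP_eq (h : TF ξ1 ψ) (k : ℕ) {L : ℝ} (hL : 0 < L) (t : ℝ) :
    ((L / (2 * Real.pi) : ℝ) : ℂ) *
      K0 ψ (ZP (fun _ : Fin k => (0:ℝ))) (fun _ => 1) c2 L t = DP k ψ L t := by
  obtain ⟨D, hD0, hD⟩ := tau_ptw k (show (0 : ℝ) < 1 / 4 by norm_num)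
  have hser := (ZP_DD (fun _ : Fin k => (0:ℝ)) (show (0 : ℝ) < 1 / 4 by norm_num)
    (hD (fun _ => 0))).ser
  set A : ℕ → ℂ := fun n => (dk k n : ℂ) with hA
  set σ : ℝ := L * (c2 - 1 / 2) with hσ
  have hσ0 : 0 ≤ σ := by
    rw [hσ, c2_eq]
    positivity
  have hPi := P_line_int h hσ0 hL
  set F : ℕ → ℝ → ℂ := fun n y => P ψ (σ + L * y * I) *
    (A n * (n : ℂ) ^ (-((c2 : ℝ) + ((y + t : ℝ) : ℂ) * I) : ℂ)) with hF
  have hcn : ∀ (n : ℕ) (u : ℝ), ‖A n * (n : ℂ) ^ (-((c2 : ℝ) + (u : ℂ) * I) : ℂ)‖ =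
      ‖A n‖ * (n : ℝ) ^ (-c2) := by
    intro n u
    rcases Nat.eq_zero_or_pos n with hn | hn
    · subst hn
      rw [hA]
      simp [dk_zero]
    · rw [norm_mul, Complex.norm_natCast_cpow_of_pos hn]
      simp
  have hFn : ∀ n y, ‖F n y‖ = ‖P ψ (σ + L * y * I)‖ * (‖A n‖ * (n : ℝ) ^ (-c2)) := by
    intro n y
    rw [hF]
    simp only
    rw [norm_mul, hcn]
  have hcont : ∀ n, Continuous (fun y : ℝ =>
      A n * (n : ℂ) ^ (-((c2 : ℝ) + ((y + t : ℝ) : ℂ) * I) : ℂ)) := by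
    intro n
    rcases Nat.eq_zero_or_pos n with hn | hn
    · subst hn
      have : (fun y : ℝ => A 0 * ((0 : ℕ) : ℂ) ^ (-((c2 : ℝ) + ((y + t : ℝ) : ℂ) * I) : ℂ)) =
          fun _ => 0 := by
        funext y
        rw [hA]
        simp [dk_zero]
      rw [this]
      exact continuous_const
    · refine continuous_const.mul ?_
      refine Continuous.const_cpow (by fun_prop) (Or.inl ?_)
      exact_mod_cast hn.ne'
  have hFi : ∀ n, Integrable (F n) := by
    intro n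
    refine (hPi.norm.mul_const (‖A n‖ * (n : ℝ) ^ (-c2))).mono' ?_
      (Eventually.of_forall fun y => (hFn n y).le)
    exact hPi.aestronglyMeasurable.mul (hcont n).aestronglyMeasurable
  have hsum : Summable (fun n : ℕ => ‖A n‖ * (n : ℝ) ^ (-c2)) := by
    have h1 : Summable (fun n : ℕ => D * (n : ℝ) ^ (-(7 / 4 : ℝ))) :=
      (Real.summable_nat_rpow.2 (by norm_num)).mul_left D
    refine h1.of_nonneg_of_le (fun n => by positivity) fun n => ?_
    rcases Nat.eq_zero_or_pos n with hn | hn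
    · subst hn
      rw [hA]
      simp [dk_zero]
    · have h2 := hD (fun _ => 0) n
      rw [tau_zero'] at h2
      have hn' : (0 : ℝ) < n := by exact_mod_cast hn
      calc ‖A n‖ * (n : ℝ) ^ (-c2) ≤ D * (n : ℝ) ^ (1 / 4 : ℝ) * (n : ℝ) ^ (-c2) := by
            gcongr
        _ = D * (n : ℝ) ^ (-(7 / 4 : ℝ)) := by
            rw [mul_assoc, ← Real.rpow_add hn', c2_eq]
            norm_num
  have hS2 : Summable (fun n => ∫ y, ‖F n y‖) := by
    refine (hsum.mul_left (∫ y : ℝ, ‖P ψ (σ + L * y * I)‖)).congr fun n => ?_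
    simp only [hFn]
    rw [integral_mul_const]
  have hmain := hasSum_integral_of_summable_integral_norm hFi hS2
  have hlhs : K0 ψ (ZP (fun _ : Fin k => (0:ℝ))) (fun _ => 1) c2 L t =
      ∫ y, ∑' n, F n y := by
    unfold K0
    refine integral_congr_ae (Eventually.of_forall fun y => ?_)
    simp only [mul_one]
    have h1 := (hser (y + t)).tsum_eq
    have h2 : ZP (fun _ : Fin k => (0:ℝ)) (((c2 : ℝ) : ℂ) + ((y + t : ℝ) : ℂ) * I) =
        ∑' n : ℕ, A n * (n : ℂ) ^ (-((c2 : ℝ) + ((y + t : ℝ) : ℂ) * I) : ℂ) := by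
      rw [c2, ← h1]
      refine tsum_congr fun n => ?_
      rw [tau_zero']
    rw [h2, ← tsum_mul_left]
  rw [hlhs, ← hmain.tsum_eq, ← tsum_mul_left]
  unfold DP
  refine tsum_congr fun n => ?_
  rcases Nat.eq_zero_or_pos n with hn | hn
  · subst hn
    rw [hF]
    simp [hA, dk_zero]
  · have hn' : (0 : ℝ) < n := by exact_mod_cast hn
    have hnc : (n : ℂ) ≠ 0 := by exact_mod_cast hn.ne'
    have hlog : (Real.log n : ℂ) = Complex.log n := (Complex.natCast_log).symm ▸ rfl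
    have hinv := P_inv h hσ0 hL (Real.log n / L)
    have e1 : ∫ y, F n y = (A n * (n : ℂ) ^ (-((c2 : ℝ) + (t : ℂ) * I) : ℂ)) *
        ∫ y : ℝ, P ψ (σ + L * y * I) * cexp (-(((Real.log n / L : ℝ) : ℂ) * L * y) * I) := by
      rw [← integral_const_mul]
      refine integral_congr_ae (Eventually.of_forall fun y => ?_)
      simp only [hF]
      have e2 : (n : ℂ) ^ (-((c2 : ℝ) + ((y + t : ℝ) : ℂ) * I) : ℂ) =
          (n : ℂ) ^ (-((c2 : ℝ) + (t : ℂ) * I) : ℂ) *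
            cexp (-(((Real.log n / L : ℝ) : ℂ) * L * y) * I) := by
        have hLc : (L : ℂ) ≠ 0 := Complex.ofReal_ne_zero.2 hL.ne'
        have e3 : -(((Real.log n / L : ℝ) : ℂ) * L * y) * I = Complex.log n * (-(y * I)) := by
          push_cast
          field_simp
        rw [e3, ← Complex.cpow_def_of_ne_zero hnc, ← Complex.cpow_add _ _ hnc]
        congr 1
        push_cast
        ring
      rw [e2]
      ring
    rw [e1, hinv]
    have e4 : ((L / (2 * Real.pi) : ℝ) : ℂ) * ((2 * Real.pi / L : ℝ) : ℂ) = 1 := by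
      rw [← Complex.ofReal_mul, ← Complex.ofReal_one]
      congr 1
      have := Real.pi_pos
      field_simp
    have e5 : (n : ℂ) ^ (-((c2 : ℝ) + (t : ℂ) * I) : ℂ) * cexp (((Real.log n / L : ℝ) : ℂ) * σ) =
        (n : ℂ) ^ (-(1 / 2 + t * I)) := by
      have hLc : (L : ℂ) ≠ 0 := Complex.ofReal_ne_zero.2 hL.ne'
      have e6 : ((Real.log n / L : ℝ) : ℂ) * σ = Complex.log n * ((c2 : ℂ) - 1 / 2) := by
        rw [hσ]
        push_cast
        field_simp
      rw [e6, ← Complex.cpow_def_of_ne_zero hnc, ← Complex.cpow_add _ _ hnc]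
      congr 1
      ring
    calc ((L / (2 * Real.pi) : ℝ) : ℂ) * (A n * (n : ℂ) ^ (-((c2 : ℝ) + (t : ℂ) * I) : ℂ) *
          (((2 * Real.pi / L : ℝ) : ℂ) * (ψ (Real.log n / L) *
            cexp (((Real.log n / L : ℝ) : ℂ) * σ))))
        = (((L / (2 * Real.pi) : ℝ) : ℂ) * ((2 * Real.pi / L : ℝ) : ℂ)) *
          (A n * ψ (Real.log n / L) * ((n : ℂ) ^ (-((c2 : ℝ) + (t : ℂ) * I) : ℂ) *
            cexp (((Real.log n / L : ℝ) : ℂ) * σ))) := by ring
      _ = _ := by rw [e4, e5, one_mul]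

end

end Q80.SP
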