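import Pool.Agent.Q80.SP.Mn2

set_option autoImplicit false

/-! Comparison principles for the square means of the Dirichlet polynomials. -/

namespace Q80.SP

open MeasureTheory Filter Topology Complex Set
open Pool.Agent.W182.KO (P TF)
open Q97.MM
open scoped ENNReal ContDiff

noncomputable section

variable (k : ℕ)

/-- test functions -/
def Tst (φ : ℝ → ℂ) : Prop := ContDiff ℝ ∞ φ ∧ HasCompactSupport φ

theorem Tst.tf {φ : ℝ → ℂ} (h : Tst φ) : ∃ ξ1 : ℝ, 0 ≤ ξ1 ∧ TF ξ1 φ := by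
  obtain ⟨R, hR⟩ := h.2.isCompact.isBounded.subset_closedBall 0
  refine ⟨max R 0, le_max_right _ _, h.1, h.2, fun ξ hξ => ?_⟩
  by_contra hne
  have h1 : ξ ∈ tsupport φ := subset_tsupport _ hne
  have h2 := hR h1
  rw [Metric.mem_closedBall, Real.dist_eq, sub_zero] at h2
  have h3 := le_abs_self ξ
  have h4 := le_max_left R 0
  linarith

/-- the reflected test function -/
def rf (k : ℕ) (φ : ℝ → ℂ) (u : ℝ) : ℂ := φ (k - u)

theorem core3 {T U : ℕ → ℝ} {ε : ℝ} (hε : 0 < ε) (hT : Tendsto T atTop atTop)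
    (hU : ∀ j, 1 ≤ U j ∧ U j ≤ T j / Real.log (T j)) (hUε : ∀ j, T j ^ ε ≤ U j) :
    ∃ s : ℕ → ℕ, StrictMono s ∧ ∃ ν : Measure ℝ, IsProbabilityMeasure ν ∧
      (∀ᵐ u ∂ν, u ∈ Icc 0 (2 * k : ℝ)) ∧ ν.map (fun u => 2 * (k : ℝ) - u) = ν ∧
      (∀ᶠ j in atTop, 0 < M0 k (T (s j)) (U (s j))) ∧
      ∀ φ : ℝ → ℂ, Tst φ → Tendsto (fun j => SS k φ (T (s j)) (U (s j)) / M0 k (T (s j)) (U (s j)))
        atTop (𝓝 (∫ u, ‖φ (u / 2)‖ ^ 2 ∂ν)) := by
  obtain ⟨s, hs, ν, h0, h1, h2, h3, h4⟩ := seq_limit2 k hT hU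
  have hsupp := supp_of_fe h1 h2 h3
  have hTs : Tendsto (fun j => T (s j)) atTop atTop := hT.comp hs.tendsto_atTop
  have hadm : ∀ᶠ j in atTop, Adm (T (s j)) (U (s j)) :=
    hs.tendsto_atTop.eventually (seq_adm hT hU)
  have hM : Tendsto (fun j => T (s j) ^ (2 * k) * M0 k (T (s j)) (U (s j)) /
      V0 k (T (s j)) (U (s j))) atTop (𝓝 1) := by
    rw [Metric.tendsto_nhds]
    intro η hη
    filter_upwards [hTs.eventually (M0_V0 k (half_pos hη)), hadm] with j q1 q2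
    have hV := V0_pos k q2
    rw [Real.dist_eq, div_sub_one hV.ne', abs_div, abs_of_pos hV, div_lt_iff₀ hV]
    refine lt_of_le_of_lt (q1 _ q2) ?_
    nlinarith
  have hpos : ∀ᶠ j in atTop, 0 < M0 k (T (s j)) (U (s j)) := by
    filter_upwards [hadm, hM.eventually (lt_mem_nhds (show (1 / 2 : ℝ) < 1 by norm_num))]
      with j q1 q2
    have q4 := V0_pos k q1
    have hS0 : 0 < T (s j) := by linarith [q1.1]
    by_contra hcon
    push Not at hcon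
    have : T (s j) ^ (2 * k) * M0 k (T (s j)) (U (s j)) / V0 k (T (s j)) (U (s j)) ≤ 0 :=
      div_nonpos_of_nonpos_of_nonneg (mul_nonpos_of_nonneg_of_nonpos (by positivity) hcon) q4.le
    linarith
  refine ⟨s, hs, ν, inferInstance, by rw [ae_iff]; exact hsupp, symm_of_fe h1 h3, hpos,
    fun φ hφ => ?_⟩
  obtain ⟨ξ1, hξ, htf⟩ := hφ.tf
  obtain ⟨B, hB⟩ := htf.cs.exists_bound_of_continuous htf.cont
  have hc : Continuous (fun u : ℝ => ‖φ (u / 2)‖ ^ 2) := by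
    have := htf.cont
    fun_prop
  let f : BoundedContinuousFunction ℝ ℝ := BoundedContinuousFunction.ofNormedAddCommGroup
    (fun u => ‖φ (u / 2)‖ ^ 2) hc (B ^ 2) (fun u => by
      rw [Real.norm_of_nonneg (by positivity)]
      have := hB (u / 2)
      gcongr)
  have g1 := h0 f
  have g2 : Tendsto (fun j => T (s j) ^ (2 * k) * SS k φ (T (s j)) (U (s j)) /
      V0 k (T (s j)) (U (s j)) - ∫ u, f u ∂(nuT k (T (s j)) (U (s j)))) atTop (𝓝 0) := by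
    rw [Metric.tendsto_nhds]
    intro η hη
    filter_upwards [hTs.eventually (main1 k htf hξ hε (half_pos hη)), hadm] with j q1 q2
    have hV := V0_pos k q2
    have q3 := q1 _ q2 (hUε _)
    rw [Real.dist_eq, sub_zero]
    have e1 : T (s j) ^ (2 * k) * SS k φ (T (s j)) (U (s j)) / V0 k (T (s j)) (U (s j)) -
        ∫ u, f u ∂(nuT k (T (s j)) (U (s j))) =
        (T (s j) ^ (2 * k) * SS k φ (T (s j)) (U (s j)) - V0 k (T (s j)) (U (s j)) *
          ∫ u, ‖φ (u / 2)‖ ^ 2 ∂(nuT k (T (s j)) (U (s j)))) / V0 k (T (s j)) (U (s j)) := by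
      rw [sub_div, mul_div_cancel_left₀ _ hV.ne']
      rfl
    rw [e1, abs_div, abs_of_pos hV, div_lt_iff₀ hV]
    refine lt_of_le_of_lt q3 ?_
    nlinarith
  have g3 := g2.add g1
  simp only [sub_add_cancel, zero_add] at g3
  have g4 := g3.div hM one_ne_zero
  rw [div_one] at g4
  refine g4.congr' ?_
  filter_upwards [hadm] with j q2
  have hV := V0_pos k q2
  have hS0 : 0 < T (s j) := by linarith [q2.1]
  have n2 : T (s j) ^ (2 * k) ≠ 0 := pow_ne_zero _ hS0.ne'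
  simp only [Pi.div_apply]
  rw [div_div_div_cancel_right₀ hV.ne', mul_div_mul_left _ _ n2]

/-- the limit in symmetric form -/
theorem sym_int {ν : Measure ℝ} [IsProbabilityMeasure ν]
    (h3 : ν.map (fun u => 2 * (k : ℝ) - u) = ν) {φ : ℝ → ℂ} (hφ : Tst φ) :
    Integrable (fun u => ‖φ (u / 2)‖ ^ 2 + ‖φ (k - u / 2)‖ ^ 2) ν ∧
    2 * ∫ u, ‖φ (u / 2)‖ ^ 2 ∂ν = ∫ u, (‖φ (u / 2)‖ ^ 2 + ‖φ (k - u / 2)‖ ^ 2) ∂ν := by
  obtain ⟨ξ1, hξ, htf⟩ := hφ.tf
  obtain ⟨B, hB⟩ := htf.cs.exists_bound_of_continuous htf.cont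
  have hc1 : Continuous (fun u : ℝ => ‖φ (u / 2)‖ ^ 2) := by
    have := htf.cont
    fun_prop
  have hc2 : Continuous (fun u : ℝ => ‖φ (k - u / 2)‖ ^ 2) := by
    have := htf.cont
    fun_prop
  have i1 : Integrable (fun u : ℝ => ‖φ (u / 2)‖ ^ 2) ν := by
    refine (integrable_const (B ^ 2)).mono' hc1.aestronglyMeasurable
      (Eventually.of_forall fun u => ?_)
    rw [Real.norm_of_nonneg (by positivity)]
    have := hB (u / 2)
    gcongr
  have i2 : Integrable (fun u : ℝ => ‖φ (k - u / 2)‖ ^ 2) ν := by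
    refine (integrable_const (B ^ 2)).mono' hc2.aestronglyMeasurable
      (Eventually.of_forall fun u => ?_)
    rw [Real.norm_of_nonneg (by positivity)]
    have := hB (k - u / 2)
    gcongr
  refine ⟨i1.add i2, ?_⟩
  have e1 : ∫ u, ‖φ (u / 2)‖ ^ 2 ∂ν = ∫ u, ‖φ (k - u / 2)‖ ^ 2 ∂ν := by
    have hm : Measurable (fun u : ℝ => 2 * (k : ℝ) - u) := by fun_prop
    conv_lhs => rw [← h3]
    rw [integral_map hm.aemeasurable hc1.aestronglyMeasurable]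
    refine integral_congr_ae (Eventually.of_forall fun u => ?_)
    have : (2 * (k : ℝ) - u) / 2 = k - u / 2 := by ring
    simp only [this]
  rw [integral_add i1 i2, ← e1]
  ring

theorem SS_nonneg (φ : ℝ → ℂ) (T U : ℝ) : 0 ≤ SS k φ T U :=
  integral_nonneg fun t => mul_nonneg (by positivity) (wt_pos _ _ _).le

/-- failure of a statement along a sequence -/
theorem seq_of_not {Q : ℝ → ℝ → Prop} {ε : ℝ} (hε : 0 < ε)
    (h : ¬ ∃ T₀ : ℝ, ∀ T : ℝ, T₀ ≤ T → ∀ U : ℝ, T ^ ε ≤ U → U ≤ T / Real.log T → Q T U) :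
    ∃ T U : ℕ → ℝ, Tendsto T atTop atTop ∧ (∀ j, 1 ≤ U j ∧ U j ≤ T j / Real.log (T j)) ∧
      (∀ j, T j ^ ε ≤ U j) ∧ ∀ j, ¬ Q (T j) (U j) := by
  push Not at h
  choose T hT U hU1 hU2 hQ using fun n : ℕ => h (n + 1)
  refine ⟨T, U, ?_, fun j => ⟨?_, hU2 j⟩, hU1, hQ⟩
  · refine tendsto_atTop_mono (fun n => ?_) tendsto_natCast_atTop_atTop
    linarith [hT n]
  · refine le_trans ?_ (hU1 j)
    apply Real.one_le_rpow _ hε.le
    have := hT j
    have : (0 : ℝ) ≤ j := Nat.cast_nonneg j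
    linarith

theorem comparison {φ χ : ℝ → ℂ} (hφ : Tst φ) (hχ : Tst χ)
    (hle : ∀ u ∈ Icc (0 : ℝ) k, ‖φ u‖ ^ 2 + ‖φ (k - u)‖ ^ 2 ≤ ‖χ u‖ ^ 2 + ‖χ (k - u)‖ ^ 2)
    {ε η : ℝ} (hε : 0 < ε) (hη : 0 < η) :
    ∃ T₀ : ℝ, ∀ T : ℝ, T₀ ≤ T → ∀ U : ℝ, T ^ ε ≤ U → U ≤ T / Real.log T →
      SS k φ T U ≤ SS k χ T U + η * M0 k T U := by
  by_contra hcon
  obtain ⟨T, U, hT, hU, hUε, hQ⟩ := seq_of_not hε hcon
  obtain ⟨s, hs, ν, hν, h2, h3, h4, h5⟩ := core3 k hε hT hU hUε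
  have g := (h5 φ hφ).sub (h5 χ hχ)
  obtain ⟨i1, e1⟩ := sym_int k h3 hφ
  obtain ⟨i2, e2⟩ := sym_int k h3 hχ
  have hlim : (∫ u, ‖φ (u / 2)‖ ^ 2 ∂ν) - ∫ u, ‖χ (u / 2)‖ ^ 2 ∂ν ≤ 0 := by
    have h6 : ∫ u, (‖φ (u / 2)‖ ^ 2 + ‖φ (k - u / 2)‖ ^ 2) ∂ν ≤
        ∫ u, (‖χ (u / 2)‖ ^ 2 + ‖χ (k - u / 2)‖ ^ 2) ∂ν := by
      refine integral_mono_ae i1 i2 ?_
      filter_upwards [h2] with u hu
      exact hle (u / 2) ⟨by linarith [hu.1], by linarith [hu.2]⟩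
    linarith
  have hge : η ≤ (∫ u, ‖φ (u / 2)‖ ^ 2 ∂ν) - ∫ u, ‖χ (u / 2)‖ ^ 2 ∂ν := by
    refine ge_of_tendsto g ?_
    filter_upwards [h4] with j q1
    have q2 := hQ (s j)
    push Not at q2
    rw [← sub_div, le_div_iff₀ q1]
    linarith
  linarith

theorem two_sided {φ : ℝ → ℂ} (hφ : Tst φ) {a b : ℝ}
    (hle : ∀ u ∈ Icc (0 : ℝ) k, a ≤ ‖φ u‖ ^ 2 + ‖φ (k - u)‖ ^ 2 ∧
      ‖φ u‖ ^ 2 + ‖φ (k - u)‖ ^ 2 ≤ b)
    {ε η : ℝ} (hε : 0 < ε) (hη : 0 < η) :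
    ∃ T₀ : ℝ, ∀ T : ℝ, T₀ ≤ T → ∀ U : ℝ, T ^ ε ≤ U → U ≤ T / Real.log T →
      (a - η) * M0 k T U ≤ 2 * SS k φ T U ∧ 2 * SS k φ T U ≤ (b + η) * M0 k T U := by
  by_contra hcon
  obtain ⟨T, U, hT, hU, hUε, hQ⟩ := seq_of_not hε hcon
  obtain ⟨s, hs, ν, hν, h2, h3, h4, h5⟩ := core3 k hε hT hU hUε
  have g := (h5 φ hφ).const_mul 2
  obtain ⟨i1, e1⟩ := sym_int k h3 hφ
  rw [e1] at g
  have hlow : a ≤ ∫ u, (‖φ (u / 2)‖ ^ 2 + ‖φ (k - u / 2)‖ ^ 2) ∂ν := by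
    have h6 : ∫ _u, a ∂ν ≤ ∫ u, (‖φ (u / 2)‖ ^ 2 + ‖φ (k - u / 2)‖ ^ 2) ∂ν := by
      refine integral_mono_ae (integrable_const a) i1 ?_
      filter_upwards [h2] with u hu
      exact (hle (u / 2) ⟨by linarith [hu.1], by linarith [hu.2]⟩).1
    simpa using h6
  have hup : ∫ u, (‖φ (u / 2)‖ ^ 2 + ‖φ (k - u / 2)‖ ^ 2) ∂ν ≤ b := by
    have h6 : ∫ u, (‖φ (u / 2)‖ ^ 2 + ‖φ (k - u / 2)‖ ^ 2) ∂ν ≤ ∫ _u, b ∂ν := by
      refine integral_mono_ae i1 (integrable_const b) ?_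
      filter_upwards [h2] with u hu
      exact (hle (u / 2) ⟨by linarith [hu.1], by linarith [hu.2]⟩).2
    simpa using h6
  obtain ⟨j, q1, q2, q3⟩ := (h4.and ((g.eventually (lt_mem_nhds (show a - η <
    ∫ u, (‖φ (u / 2)‖ ^ 2 + ‖φ (k - u / 2)‖ ^ 2) ∂ν by linarith))).and
    (g.eventually (gt_mem_nhds (show ∫ u, (‖φ (u / 2)‖ ^ 2 + ‖φ (k - u / 2)‖ ^ 2) ∂ν < b + η by
      linarith))))).exists
  apply hQ (s j)
  rw [← mul_div_assoc, lt_div_iff₀ q1] at q2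
  rw [← mul_div_assoc, div_lt_iff₀ q1] at q3
  exact ⟨q2.le, q3.le⟩

/-- the smooth step is complementary -/
theorem st_compl (x : ℝ) : Real.smoothTransition x + Real.smoothTransition (1 - x) = 1 := by
  unfold Real.smoothTransition
  have h : 0 < expNegInvGlue x + expNegInvGlue (1 - x) :=
    Real.smoothTransition.pos_denom x
  have e : 1 - (1 - x) = x := by ring
  rw [e, add_comm (expNegInvGlue (1 - x)), ← add_div, div_self h.ne']

/-- the test function that splits the interval `[0, k]` in the middle -/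
def spl (δ u : ℝ) : ℝ :=
  Real.cos (Real.pi / 2 * Real.smoothTransition (((u - k / 2) / δ + 1) / 2)) *
    Real.smoothTransition (u + 1)

theorem spl_props {δ : ℝ} (hδ : 0 < δ) : ContDiff ℝ ∞ (spl k δ) ∧
    (∀ u, 0 ≤ spl k δ u ∧ spl k δ u ≤ 1) ∧ (∀ u, u ≤ -1 → spl k δ u = 0) ∧
    (∀ u, k / 2 + δ ≤ u → spl k δ u = 0) ∧
    (∀ u ∈ Icc (0 : ℝ) k, spl k δ u ^ 2 + spl k δ (k - u) ^ 2 = 1) := by
  have hpi := Real.pi_pos
  have hst := fun x => Real.smoothTransition.nonneg x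
  have hst1 := fun x => Real.smoothTransition.le_one x
  refine ⟨?_, fun u => ?_, fun u hu => ?_, fun u hu => ?_, fun u hu => ?_⟩
  · unfold spl
    have h1 : ContDiff ℝ ∞ (fun u : ℝ => Real.smoothTransition (((u - k / 2) / δ + 1) / 2)) :=
      Real.smoothTransition.contDiff.comp (by fun_prop)
    have h2 : ContDiff ℝ ∞ (fun u : ℝ => Real.smoothTransition (u + 1)) :=
      Real.smoothTransition.contDiff.comp (by fun_prop)
    exact (Real.contDiff_cos.comp (contDiff_const.mul h1)).mul h2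
  · unfold spl
    have h1 : 0 ≤ Real.cos (Real.pi / 2 *
        Real.smoothTransition (((u - k / 2) / δ + 1) / 2)) := by
      apply Real.cos_nonneg_of_neg_pi_div_two_le_of_le
      · have := mul_nonneg (by positivity : 0 ≤ Real.pi / 2) (hst (((u - k / 2) / δ + 1) / 2))
        linarith
      · have := mul_le_mul_of_nonneg_left (hst1 (((u - k / 2) / δ + 1) / 2))
          (by positivity : 0 ≤ Real.pi / 2)
        linarith
    have h2 := Real.cos_le_one (Real.pi / 2 * Real.smoothTransition (((u - k / 2) / δ + 1) / 2))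
    exact ⟨mul_nonneg h1 (hst _), mul_le_one₀ h2 (hst _) (hst1 _)⟩
  · unfold spl
    rw [Real.smoothTransition.zero_of_nonpos (by linarith : u + 1 ≤ 0), mul_zero]
  · unfold spl
    have h1 : 1 ≤ ((u - k / 2) / δ + 1) / 2 := by
      have : 1 ≤ (u - k / 2) / δ := by
        rw [one_le_div hδ]
        linarith
      linarith
    rw [Real.smoothTransition.one_of_one_le h1, mul_one, Real.cos_pi_div_two, zero_mul]
  · unfold spl
    rw [Real.smoothTransition.one_of_one_le (by linarith [hu.1] : 1 ≤ u + 1),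
      Real.smoothTransition.one_of_one_le (by linarith [hu.2] : 1 ≤ k - u + 1), mul_one, mul_one]
    have e1 : ((k - u - k / 2) / δ + 1) / 2 = 1 - ((u - k / 2) / δ + 1) / 2 := by
      field_simp
      ring
    have e2 := st_compl (((u - k / 2) / δ + 1) / 2)
    rw [e1]
    set x := Real.smoothTransition (((u - k / 2) / δ + 1) / 2)
    have e3 : Real.smoothTransition (1 - ((u - k / 2) / δ + 1) / 2) = 1 - x := by linarith
    rw [e3]
    have e4 : Real.pi / 2 * (1 - x) = Real.pi / 2 - Real.pi / 2 * x := by ring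
    rw [e4, Real.cos_pi_div_two_sub]
    exact Real.cos_sq_add_sin_sq _

end

end Q80.SP
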