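import Pool.Agent.W182.KO.Shift
import Pool.Agent.Q97.MM.Fin3

set_option autoImplicit false

/-! The smoothing kernel attached to a test function, and Plancherel's formula for the smoothed
function. -/

namespace Q80.SP

open MeasureTheory Filter Topology Complex Set FourierTransform
open Pool.Agent.W182.KO (P TF P_bound P_diff P_inv one_add_inv_sq_int J2 J2_nonneg)
open scoped ContDiff Convolution

noncomputable section

/-- the kernel -/
def kr (ψ : ℝ → ℂ) (L y : ℝ) : ℂ := ((L / (2 * Real.pi) : ℝ) : ℂ) * P ψ (L * y * I)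

variable {ξ1 : ℝ} {ψ : ℝ → ℂ}

theorem kr_cont (h : TF ξ1 ψ) (L : ℝ) : Continuous (kr ψ L) := by
  have hP : Continuous (P ψ) := (P_diff h).continuous
  unfold kr
  exact continuous_const.mul (hP.comp (by fun_prop))

theorem kr_bd (h : TF ξ1 ψ) (N : ℕ) : ∃ C : ℝ, 0 ≤ C ∧ ∀ L : ℝ, 0 < L → ∀ y : ℝ,
    ‖kr ψ L y‖ ≤ C * (L / (1 + L * |y|) ^ N) := by
  obtain ⟨C, hC, hb⟩ := P_bound h N
  refine ⟨C, hC, fun L hL y => ?_⟩
  have h1 := hb (L * y * I) (by simp)
  have e1 : ((L : ℂ) * y * I).re = 0 := by simp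
  have e2 : ‖(L : ℂ) * y * I‖ = L * |y| := by
    rw [norm_mul, norm_mul, Complex.norm_I, mul_one, Complex.norm_real, Complex.norm_real,
      Real.norm_eq_abs, Real.norm_eq_abs, abs_of_pos hL]
  rw [e1, e2, mul_zero, Real.exp_zero, mul_one] at h1
  have hp : 0 < (1 + L * |y|) ^ N := by positivity
  have h2 : ‖P ψ (L * y * I)‖ ≤ C / (1 + L * |y|) ^ N := by
    rwa [le_div_iff₀ hp]
  unfold kr
  rw [norm_mul, Complex.norm_real, Real.norm_of_nonneg (by positivity)]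
  have hpi : (1 : ℝ) ≤ 2 * Real.pi := by linarith [Real.pi_gt_three]
  calc L / (2 * Real.pi) * ‖P ψ (L * y * I)‖ ≤ L * (C / (1 + L * |y|) ^ N) := by
        apply mul_le_mul _ h2 (norm_nonneg _) hL.le
        exact div_le_self hL.le hpi
    _ = C * (L / (1 + L * |y|) ^ N) := by ring

theorem sc_int {L : ℝ} (hL : 0 < L) : Integrable (fun y : ℝ => L / (1 + L * |y|) ^ 2) := by
  have h1 := (one_add_inv_sq_int.comp_mul_left' hL.ne').const_mul L
  refine h1.congr (Eventually.of_forall fun y => ?_)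
  simp only [abs_mul, abs_of_pos hL]
  rw [div_eq_mul_inv]

theorem sc_val {L : ℝ} (hL : 0 < L) : ∫ y : ℝ, L / (1 + L * |y|) ^ 2 = J2 := by
  have h1 := Measure.integral_comp_mul_left (fun y : ℝ => ((1 + |y|) ^ 2)⁻¹) L
  have h2 : ∫ y : ℝ, L / (1 + L * |y|) ^ 2 = L * ∫ y : ℝ, ((1 + |L * y|) ^ 2)⁻¹ := by
    rw [← integral_const_mul]
    refine integral_congr_ae (Eventually.of_forall fun y => ?_)
    simp only [abs_mul, abs_of_pos hL]
    rw [div_eq_mul_inv]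
  rw [h2, h1, abs_of_pos (inv_pos.2 hL), smul_eq_mul, ← mul_assoc, mul_inv_cancel₀ hL.ne', one_mul]
  rfl

theorem kr_int (h : TF ξ1 ψ) {L : ℝ} (hL : 0 < L) : Integrable (kr ψ L) := by
  obtain ⟨C, hC, hb⟩ := kr_bd h 2
  exact ((sc_int hL).const_mul C).mono' (kr_cont h L).aestronglyMeasurable
    (Eventually.of_forall fun y => hb L hL y)

theorem kr_mass (h : TF ξ1 ψ) : ∃ C : ℝ, 0 ≤ C ∧ ∀ L : ℝ, 0 < L → ∫ y, ‖kr ψ L y‖ ≤ C := by
  obtain ⟨C, hC, hb⟩ := kr_bd h 2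
  refine ⟨C * J2, mul_nonneg hC J2_nonneg, fun L hL => ?_⟩
  rw [← sc_val hL, ← integral_const_mul]
  exact integral_mono (kr_int h hL).norm ((sc_int hL).const_mul C) fun y => hb L hL y

/-- the Fourier transform of the kernel -/
theorem kr_fourier (h : TF ξ1 ψ) {L : ℝ} (hL : 0 < L) (ξ : ℝ) :
    𝓕 (fun x => kr ψ L (-x)) ξ = ψ (-(2 * Real.pi * ξ / L)) := by
  rw [Real.fourier_real_eq_integral_exp_smul]
  have h1 := P_inv h (σ := 0) (L := L) le_rfl hL (-(2 * Real.pi * ξ / L))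
  have h2 : ∫ v : ℝ, cexp (((-2 * Real.pi * v * ξ : ℝ) : ℂ) * I) • kr ψ L (-v) =
      ∫ v : ℝ, cexp (((-2 * Real.pi * (-v) * ξ : ℝ) : ℂ) * I) • kr ψ L v := by
    rw [← integral_neg_eq_self]
    simp only [neg_neg]
  rw [h2]
  have h3 : ∫ v : ℝ, cexp (((-2 * Real.pi * (-v) * ξ : ℝ) : ℂ) * I) • kr ψ L v =
      ((L / (2 * Real.pi) : ℝ) : ℂ) *
        ∫ y : ℝ, P ψ (((0 : ℝ) : ℂ) + L * y * I) *
          cexp (-(((-(2 * Real.pi * ξ / L) : ℝ) : ℂ) * L * y) * I) := by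
    rw [← integral_const_mul]
    refine integral_congr_ae (Eventually.of_forall fun y => ?_)
    simp only [smul_eq_mul, kr, Complex.ofReal_zero, zero_add]
    have e1 : ((-2 * Real.pi * (-y) * ξ : ℝ) : ℂ) * I =
        -(((-(2 * Real.pi * ξ / L) : ℝ) : ℂ) * L * y) * I := by
      have hLc : (L : ℂ) ≠ 0 := Complex.ofReal_ne_zero.2 hL.ne'
      push_cast
      field_simp
    rw [e1]
    ring
  rw [h3, h1, ← mul_assoc, ← Complex.ofReal_mul]
  have e4 : L / (2 * Real.pi) * (2 * Real.pi / L) = 1 := by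
    have := Real.pi_pos
    field_simp
  rw [e4]
  simp

/-- the smoothed function -/
def sm (ψ : ℝ → ℂ) (L : ℝ) (f : ℝ → ℂ) (t : ℝ) : ℂ := ∫ y : ℝ, kr ψ L y * f (t + y)

theorem sm_conv (ψ : ℝ → ℂ) (L : ℝ) (f : ℝ → ℂ) :
    sm ψ L f = (fun x => kr ψ L (-x)) ⋆[ContinuousLinearMap.mul ℂ ℂ] f := by
  funext t
  unfold sm
  rw [MeasureTheory.convolution_def, ← integral_neg_eq_self]
  simp only [ContinuousLinearMap.mul_apply', sub_eq_add_neg]

theorem sm_planch (h : TF ξ1 ψ) {L : ℝ} (hL : 0 < L) {f : ℝ → ℂ} (hf : Integrable f)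
    (hfc : Continuous f) {B : ℝ} (hB : ∀ y, ‖f y‖ ≤ B) :
    Integrable (fun t => ‖sm ψ L f t‖ ^ 2) ∧ AEStronglyMeasurable (sm ψ L f) volume ∧
    ∫ t, ‖sm ψ L f t‖ ^ 2 = ∫ ξ, ‖ψ (-(2 * Real.pi * ξ / L))‖ ^ 2 * ‖𝓕 f ξ‖ ^ 2 := by
  have hk : Integrable (fun x => kr ψ L (-x)) := (kr_int h hL).comp_neg
  have hi : Integrable (sm ψ L f) := by
    rw [sm_conv]
    exact hk.integrable_convolution (ContinuousLinearMap.mul ℂ ℂ) hf
  have hB0 : 0 ≤ B := (norm_nonneg _).trans (hB 0)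
  have hbd : ∀ t, ‖sm ψ L f t‖ ≤ (∫ y, ‖kr ψ L y‖) * B := by
    intro t
    unfold sm
    rw [← integral_mul_const]
    refine norm_integral_le_of_norm_le ((kr_int h hL).norm.mul_const _)
      (Eventually.of_forall fun y => ?_)
    rw [norm_mul]
    exact mul_le_mul_of_nonneg_left (hB _) (norm_nonneg _)
  have h2 : MemLp (sm ψ L f) 2 := by
    rw [memLp_two_iff_integrable_sq_norm hi.aestronglyMeasurable]
    refine (hi.norm.const_mul ((∫ y, ‖kr ψ L y‖) * B)).mono'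
      (hi.aestronglyMeasurable.norm.pow 2) (Eventually.of_forall fun t => ?_)
    rw [Real.norm_of_nonneg (by positivity), sq]
    exact mul_le_mul_of_nonneg_right (hbd t) (norm_nonneg _)
  have hp := Pool.Agent.Helper625.Planch.plancherel (sm ψ L f) hi h2
  refine ⟨(memLp_two_iff_integrable_sq_norm hi.aestronglyMeasurable).mp h2,
    hi.aestronglyMeasurable, ?_⟩
  rw [← hp.2]
  refine integral_congr_ae (Eventually.of_forall fun ξ => ?_)
  simp only
  rw [sm_conv, Real.fourier_mul_convolution_eq hk hf, norm_mul, mul_pow, kr_fourier h hL]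

end

end Q80.SP
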