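import Pool.Agent.Q80.SP.Apx

set_option autoImplicit false

/-! The square mean of the Dirichlet polynomial in terms of the spectral measure. -/

namespace Q80.SP

open MeasureTheory Filter Topology Complex Set
open Pool.Agent.W182.KO (P TF J2 J2_nonneg)
open Q97.MM
open scoped ENNReal

noncomputable section

variable (k : ℕ) {ξ1 : ℝ} {ψ : ℝ → ℂ}

theorem apart (h : TF ξ1 ψ) (hξ : 0 ≤ ξ1) {η : ℝ} (hη : 0 < η) : ∀ᶠ T : ℝ in atTop, ∀ U : ℝ,
    Adm T U →
    Integrable (fun t => ‖DP k ψ (Real.log T) t - sm ψ (Real.log T) (hz k) t‖ ^ 2 * wt T U t) ∧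
    T ^ (2 * k) * ∫ t, ‖DP k ψ (Real.log T) t - sm ψ (Real.log T) (hz k) t‖ ^ 2 * wt T U t ≤
      η * V0 k T U := by
  obtain ⟨c, hc, hc'⟩ := V0_lower k
  obtain ⟨C, hC, hap⟩ := apx k h hξ 1
  obtain ⟨C2, m, hC2, hcr⟩ := crude k h hξ
  have hK0 := KK_nonneg 0
  have hK4 := KK_nonneg (4 * k)
  have htail := (tail_tendsto (4 * k + 2 * m) (show (0:ℝ) < 1 / 2 by norm_num)).const_mul
    (2 * (C ^ 2 + C2 ^ 2) * KK (4 * k) / c)
  rw [mul_zero] at htail
  have hinv : Tendsto (fun T : ℝ => C ^ 2 * KK 0 / c * (T ^ 2)⁻¹) atTop (𝓝 0) := by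
    have := ((tendsto_pow_atTop (α := ℝ) (n := 2) (by norm_num)).inv_tendsto_atTop).const_mul
      (C ^ 2 * KK 0 / c)
    simpa using this
  filter_upwards [htail.eventually (gt_mem_nhds (half_pos hη)),
    hinv.eventually (gt_mem_nhds (half_pos hη)), eventually_ge_atTop 4] with T h1 h2 h3 U hA
  have hT0 : 0 < T := by linarith
  have hU := hA.pos
  have hL0 : 0 < Real.log T := by linarith [hA.log]
  set L := Real.log T with hL
  set r : ℝ → ℝ := fun t => ‖DP k ψ L t - sm ψ L (hz k) t‖ ^ 2 with hr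
  set κ : ℝ := C ^ 2 / T ^ 2 with hκ
  have hκ0 : 0 ≤ κ := by positivity
  have hrm : AEStronglyMeasurable r volume :=
    (((DP_cont k h hL0).aestronglyMeasurable.sub (sm_meas h L (hz_cont k))).norm.pow 2)
  set q : ℝ → ℝ := fun t => κ + r t with hq
  have hr0 : ∀ t, 0 ≤ r t := fun t => by rw [hr]; positivity
  have hrb : ∀ t, r t ≤ C2 ^ 2 * T ^ (2 * m) * (1 + |t|) ^ (4 * k) := by
    intro t
    calc r t ≤ (C2 * T ^ m * (1 + |t|) ^ (2 * k)) ^ 2 := by
          rw [hr]
          simp only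
          have := hcr T h3 t
          gcongr
      _ = _ := by
          rw [mul_pow, mul_pow, ← pow_mul, ← pow_mul]
          ring_nf
  have hκC : κ ≤ C ^ 2 * T ^ (2 * m) := by
    rw [hκ]
    have a1 : C ^ 2 / T ^ 2 ≤ C ^ 2 := div_le_self (by positivity) (one_le_pow₀ (by linarith))
    have a2 : C ^ 2 ≤ C ^ 2 * T ^ (2 * m) :=
      le_mul_of_one_le_right (by positivity) (one_le_pow₀ (by linarith))
    linarith
  have h1t : ∀ t : ℝ, 1 ≤ (1 + |t|) ^ (4 * k) := fun t => one_le_pow₀ (by linarith [abs_nonneg t])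
  have hpb : ∀ t : ℝ, |κ| ≤ (C ^ 2 + C2 ^ 2) * T ^ (2 * m) * (1 + |t|) ^ (4 * k) := by
    intro t
    rw [abs_of_nonneg hκ0]
    calc κ ≤ C ^ 2 * T ^ (2 * m) * 1 := by linarith
      _ ≤ (C ^ 2 + C2 ^ 2) * T ^ (2 * m) * (1 + |t|) ^ (4 * k) := by
        have := h1t t
        gcongr
        nlinarith [sq_nonneg C2]
  have hqb : ∀ t, |q t| ≤ (C ^ 2 + C2 ^ 2) * T ^ (2 * m) * (1 + |t|) ^ (4 * k) := by
    intro t
    rw [hq]
    simp only
    rw [abs_of_nonneg (by linarith [hr0 t])]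
    have b1 := hrb t
    have b2 : κ ≤ C ^ 2 * T ^ (2 * m) * (1 + |t|) ^ (4 * k) := by
      calc κ ≤ C ^ 2 * T ^ (2 * m) * 1 := by linarith
        _ ≤ _ := by
          have := h1t t
          gcongr
    have : (C ^ 2 + C2 ^ 2) * T ^ (2 * m) * (1 + |t|) ^ (4 * k) =
      C ^ 2 * T ^ (2 * m) * (1 + |t|) ^ (4 * k) + C2 ^ 2 * T ^ (2 * m) * (1 + |t|) ^ (4 * k) := by
      ring
    linarith
  have hpq : ∀ t, |t - T| ≤ 1 / 2 * T → |κ - q t| ≤ 1 * κ := by
    intro t ht
    have e1 : κ - q t = -r t := by rw [hq]; ring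
    rw [e1, abs_neg, abs_of_nonneg (hr0 t), one_mul]
    have b1 := hap T h3 t (by linarith)
    rw [pow_one] at b1
    calc r t ≤ (C / T) ^ 2 := by
          rw [hr]
          simp only
          gcongr
      _ = κ := by rw [hκ, div_pow]
  have hqm : AEStronglyMeasurable q volume := by
    rw [hq]
    exact aestronglyMeasurable_const.add hrm
  have hloc := loc (4 * k) hA.1 hU hA.2.2 (show (0:ℝ) ≤ 1 / 2 by norm_num) zero_le_one
    (p := fun _ => κ) aestronglyMeasurable_const hqm (fun _ => hκ0) hpb hqb hpq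
  have ip := poly_wt_integrable (4 * k) hU hT0.le hA.le (p := fun _ => κ)
    aestronglyMeasurable_const hpb
  have iq := poly_wt_integrable (4 * k) hU hT0.le hA.le hqm hqb
  have ir : Integrable (fun t => r t * wt T U t) := by
    refine (iq.sub ip).congr (Eventually.of_forall fun t => ?_)
    simp only [Pi.sub_apply, hq]
    ring
  refine ⟨ir, ?_⟩
  have e1 : (∫ t, κ * wt T U t) - ∫ t, q t * wt T U t = -∫ t, r t * wt T U t := by
    rw [← integral_sub ip iq, ← integral_neg]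
    refine integral_congr_ae (Eventually.of_forall fun t => ?_)
    simp only [hq]
    ring
  rw [e1, abs_neg, one_mul] at hloc
  have h4 := (le_abs_self _).trans hloc
  have h5 : ∫ t, κ * wt T U t ≤ κ * (U * KK 0) := by
    rw [integral_const_mul]
    have := (poly_wt_bound 0 hA).2
    simp only [pow_zero, one_mul] at this
    exact mul_le_mul_of_nonneg_left this hκ0
  have h6 := hc' T U hA
  have hR : ∫ t, r t * wt T U t ≤ κ * (U * KK 0) +
      2 * ((C ^ 2 + C2 ^ 2) * T ^ (2 * m)) * (1 + T) ^ (4 * k) *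
        Real.exp (-((1 / 2 * L) ^ 2 / 2)) * (U * KK (4 * k)) := by linarith
  have hTm : T ^ (2 * m) ≤ (1 + T) ^ (2 * m) := by gcongr; linarith
  calc T ^ (2 * k) * ∫ t, r t * wt T U t ≤ T ^ (2 * k) * (κ * (U * KK 0) +
      2 * ((C ^ 2 + C2 ^ 2) * (1 + T) ^ (2 * m)) * (1 + T) ^ (4 * k) *
        Real.exp (-((1 / 2 * L) ^ 2 / 2)) * (U * KK (4 * k))) := by
        apply mul_le_mul_of_nonneg_left _ (by positivity)
        refine hR.trans ?_
        gcongr
    _ = (C ^ 2 * KK 0 / c * (T ^ 2)⁻¹ + 2 * (C ^ 2 + C2 ^ 2) * KK (4 * k) / c *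
        ((1 + T) ^ (4 * k + 2 * m) * Real.exp (-((1 / 2 * L) ^ 2 / 2)))) *
          (c * (T ^ (2 * k) * U)) := by
        rw [hκ, pow_add (1 + T)]
        field_simp
    _ ≤ η * V0 k T U := by
        apply mul_le_mul _ h6 (by positivity) hη.le
        linarith

theorem krhz_int (h : TF ξ1 ψ) {L : ℝ} (hL : 1 ≤ L) (t : ℝ) :
    Integrable (fun y => kr ψ L y * hz k (t + y)) := by
  obtain ⟨C3, hC3, hb⟩ := kr_bd h (2 * k + 2)
  have hL0 : 0 < L := by linarith
  have hcont : Continuous (fun y => kr ψ L y * hz k (t + y)) := by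
    have h1 := kr_cont h L
    have h2 := hz_cont k
    fun_prop
  refine ((sc_int hL0).const_mul (C3 * 180 ^ k * (1 + |t|) ^ (2 * k))).mono'
    hcont.aestronglyMeasurable (Eventually.of_forall fun y => ?_)
  rw [norm_mul]
  have a1 := hb L hL0 y
  have a2 := hz_bd k (t + y)
  have a3 : (1 + |t + y|) ^ (2 * k) ≤ (1 + |t|) ^ (2 * k) * (1 + L * |y|) ^ (2 * k) := by
    rw [← mul_pow]
    have := abs_add_le t y
    have n1 := abs_nonneg t
    have n2 := abs_nonneg y
    have n3 : |y| ≤ L * |y| := by nlinarith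
    gcongr
    nlinarith [mul_nonneg n1 (mul_nonneg hL0.le n2)]
  have hp : 0 < 1 + L * |y| := by positivity
  calc ‖kr ψ L y‖ * ‖hz k (t + y)‖ ≤ (C3 * (L / (1 + L * |y|) ^ (2 * k + 2))) *
        (180 ^ k * ((1 + |t|) ^ (2 * k) * (1 + L * |y|) ^ (2 * k))) := by
        apply mul_le_mul a1 _ (norm_nonneg _) (by positivity)
        refine a2.trans ?_
        gcongr
    _ = _ := by
        rw [pow_add]
        field_simp

/-- `FF` on the critical line -/
def fl (T U y : ℝ) : ℂ := FF k T U (pt y)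

theorem err_eq (h : TF ξ1 ψ) {T U L : ℝ} (hA : Adm T U) (hL : 1 ≤ L) (t : ℝ) :
    ((T : ℂ) * I) ^ k * (gg T U t : ℂ) * DP k ψ L t - sm ψ L (fl k T U) t =
      ((T : ℂ) * I) ^ k * (gg T U t : ℂ) * (DP k ψ L t - sm ψ L (hz k) t) +
        ∫ y, kr ψ L y * Kf k T U t y := by
  have hL0 : 0 < L := by linarith
  obtain ⟨M, δ, hM, hδ, hbd⟩ := FF_bd k T hA.pos
  have hfc : Continuous (fl k T U) := (FF_differentiable k T U).continuous.comp pt_cont
  have i1 : Integrable (fun y => ((T : ℂ) * I) ^ k * (gg T U t : ℂ) * (kr ψ L y * hz k (t + y))) :=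
    (krhz_int k h hL t).const_mul _
  have i2 : Integrable (fun y => kr ψ L y * fl k T U (t + y)) := by
    refine ((kr_int h hL0).norm.mul_const M).mono' ?_ (Eventually.of_forall fun y => ?_)
    · have h1 := kr_cont h L
      exact (h1.mul (hfc.comp (by fun_prop))).aestronglyMeasurable
    · rw [norm_mul]
      apply mul_le_mul_of_nonneg_left _ (norm_nonneg _)
      refine (hbd (1 / 2) (t + y) (by norm_num) (by norm_num)).trans ?_
      apply mul_le_of_le_one_right hM
      rw [Real.exp_le_one_iff]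
      nlinarith [sq_nonneg (t + y)]
  have e1 : ∫ y, kr ψ L y * Kf k T U t y =
      (∫ y, ((T : ℂ) * I) ^ k * (gg T U t : ℂ) * (kr ψ L y * hz k (t + y))) -
        ∫ y, kr ψ L y * fl k T U (t + y) := by
    rw [← integral_sub i1 i2]
    refine integral_congr_ae (Eventually.of_forall fun y => ?_)
    simp only [Kf, fl, FF_hz]
    ring
  rw [e1, integral_const_mul]
  unfold sm
  ring

end

end Q80.SP
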