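import Pool.Agent.Q80.SP.Mn

set_option autoImplicit false

/-! The square mean of the Dirichlet polynomial in terms of the spectral measure. -/

namespace Q80.SP

open MeasureTheory Filter Topology Complex Set FourierTransform
open Pool.Agent.W182.KO (P TF J2 J2_nonneg)
open Q97.MM
open scoped ENNReal

noncomputable section

variable (k : ℕ) {ξ1 : ℝ} {ψ : ℝ → ℂ}

/-- the square mean of the Dirichlet polynomial -/
def SS (ψ : ℝ → ℂ) (T U : ℝ) : ℝ := ∫ t : ℝ, ‖DP k ψ (Real.log T) t‖ ^ 2 * wt T U t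

theorem sq_le_two (a b : ℂ) : ‖a + b‖ ^ 2 ≤ 2 * ‖a‖ ^ 2 + 2 * ‖b‖ ^ 2 := by
  have h1 := norm_add_le a b
  have h2 := norm_nonneg (a + b)
  nlinarith [sq_nonneg (‖a‖ - ‖b‖), norm_nonneg a, norm_nonneg b]

theorem err_small (h : TF ξ1 ψ) (hξ : 0 ≤ ξ1) {ε η : ℝ} (hε : 0 < ε) (hη : 0 < η) :
    ∀ᶠ T : ℝ in atTop, ∀ U : ℝ, Adm T U → T ^ ε ≤ U →
      ∫⁻ t, ENNReal.ofReal (‖((T : ℂ) * I) ^ k * (gg T U t : ℂ) * DP k ψ (Real.log T) t -
        sm ψ (Real.log T) (fl k T U) t‖ ^ 2) ≤ ENNReal.ofReal (η * V0 k T U) := by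
  filter_upwards [apart k h hξ (show 0 < η / 4 by positivity),
    comm_small k h hε (show 0 < η / 4 by positivity), eventually_ge_atTop 3] with T h1 h2 h3 U hA hU
  have hL := hA.log
  have hT0 : 0 < T := by linarith
  obtain ⟨g1, g2⟩ := h1 U hA
  have g3 := h2 U hA hU
  have hV := V0_pos k hA
  set L := Real.log T with hLd
  have hpt : ∀ t, ENNReal.ofReal (‖((T : ℂ) * I) ^ k * (gg T U t : ℂ) * DP k ψ L t -
        sm ψ L (fl k T U) t‖ ^ 2) ≤
      ENNReal.ofReal (2 * T ^ (2 * k) * (‖DP k ψ L t - sm ψ L (hz k) t‖ ^ 2 * wt T U t)) +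
        2 * ‖∫ y, kr ψ L y * Kf k T U t y‖ₑ ^ 2 := by
    intro t
    rw [err_eq k h hA hL t]
    have q := sq_le_two (((T : ℂ) * I) ^ k * (gg T U t : ℂ) * (DP k ψ L t - sm ψ L (hz k) t))
      (∫ y, kr ψ L y * Kf k T U t y)
    have e1 : ‖((T : ℂ) * I) ^ k * (gg T U t : ℂ) * (DP k ψ L t - sm ψ L (hz k) t)‖ ^ 2 =
        T ^ (2 * k) * (‖DP k ψ L t - sm ψ L (hz k) t‖ ^ 2 * wt T U t) := by
      rw [norm_mul, norm_mul, norm_pow, norm_mul, Complex.norm_I, mul_one, Complex.norm_real,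
        Real.norm_of_nonneg hT0.le, Complex.norm_real, Real.norm_of_nonneg (gg_pos _ _ _).le,
        mul_pow, mul_pow, gg_sq, ← pow_mul, mul_comm k 2]
      ring
    rw [e1] at q
    refine (ENNReal.ofReal_le_ofReal q).trans ?_
    have hw := (wt_pos T U t).le
    rw [ENNReal.ofReal_add (by positivity) (by positivity), enorm_sq]
    refine add_le_add (le_of_eq ?_) (le_of_eq ?_)
    · congr 1
      ring
    · rw [ENNReal.ofReal_mul (by norm_num)]
      norm_num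
  refine (lintegral_mono hpt).trans ?_
  have hr : Integrable (fun t => 2 * T ^ (2 * k) *
      (‖DP k ψ L t - sm ψ L (hz k) t‖ ^ 2 * wt T U t)) := g1.const_mul _
  rw [lintegral_add_left' hr.aestronglyMeasurable.aemeasurable.ennreal_ofReal,
    lintegral_const_mul' _ _ (by norm_num),
    ← ofReal_integral_eq_lintegral_ofReal hr (Eventually.of_forall fun t => by
      have hw := (wt_pos T U t).le
      positivity), integral_const_mul]
  calc _ ≤ ENNReal.ofReal (η / 2 * V0 k T U) + 2 * ENNReal.ofReal (η / 4 * V0 k T U) := by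
        refine add_le_add (ENNReal.ofReal_le_ofReal ?_) (mul_le_mul' le_rfl g3)
        rw [mul_assoc]
        linarith
    _ = ENNReal.ofReal (η * V0 k T U) := by
        have e2 : (2 : ℝ≥0∞) = ENNReal.ofReal 2 := by norm_num
        rw [e2, ← ENNReal.ofReal_mul (by norm_num), ← ENNReal.ofReal_add (by positivity)
          (by positivity)]
        congr 1
        ring

theorem sq_compare {δ : ℝ} (hδ : 0 < δ) (a b : ℂ) :
    ‖a‖ ^ 2 ≤ (1 + δ) * ‖b‖ ^ 2 + (1 + 1 / δ) * ‖a - b‖ ^ 2 := by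
  have h1 : ‖a‖ ≤ ‖b‖ + ‖a - b‖ := by
    have := norm_add_le b (a - b)
    rwa [add_sub_cancel] at this
  have h2 := norm_nonneg a
  have h3 := norm_nonneg b
  have h4 := norm_nonneg (a - b)
  have h5 : ‖a‖ ^ 2 ≤ (‖b‖ + ‖a - b‖) ^ 2 := by gcongr
  have h6 : 2 * (‖b‖ * ‖a - b‖) ≤ δ * ‖b‖ ^ 2 + 1 / δ * ‖a - b‖ ^ 2 := by
    have h7 : 0 ≤ (δ * ‖b‖ - ‖a - b‖) ^ 2 / δ := by positivity
    have h8 : (δ * ‖b‖ - ‖a - b‖) ^ 2 / δ =
        δ * ‖b‖ ^ 2 - 2 * (‖b‖ * ‖a - b‖) + 1 / δ * ‖a - b‖ ^ 2 := by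
      field_simp
      ring
    linarith
  nlinarith

theorem fl_facts {T U : ℝ} (hA : Adm T U) : Integrable (fl k T U) ∧ Continuous (fl k T U) ∧
    (∃ B, ∀ y, ‖fl k T U y‖ ≤ B) ∧ Continuous (dens (FF k T U) (1 / 2)) ∧
    (∀ ξ, ‖𝓕 (fl k T U) ξ‖ ^ 2 = dens (FF k T U) (1 / 2) ξ) := by
  obtain ⟨M, δ, hM, hδ, hbd⟩ := FF_bd k T hA.pos
  have hfc : Continuous (fl k T U) := (FF_differentiable k T U).continuous.comp pt_cont
  refine ⟨?_, hfc, ⟨M, fun y => ?_⟩, ?_, fun ξ => rfl⟩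
  · exact ln_integrable (FF_differentiable k T U) hδ hbd (x := 1 / 2) (by norm_num) (by norm_num)
  · refine (hbd (1 / 2) y (by norm_num) (by norm_num)).trans ?_
    apply mul_le_of_le_one_right hM
    rw [Real.exp_le_one_iff]
    nlinarith [sq_nonneg y]
  · exact dens_measurable (FF_differentiable k T U) hδ hbd (by norm_num) (by norm_num)

theorem sm_fl (h : TF ξ1 ψ) {T U : ℝ} (hA : Adm T U) :
    Integrable (fun t => ‖sm ψ (Real.log T) (fl k T U) t‖ ^ 2) ∧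
    AEStronglyMeasurable (sm ψ (Real.log T) (fl k T U)) volume ∧
    ∫ t, ‖sm ψ (Real.log T) (fl k T U) t‖ ^ 2 =
      V0 k T U * ∫ u, ‖ψ (u / 2)‖ ^ 2 ∂(nuT k T U) := by
  have hL0 : 0 < Real.log T := by linarith [hA.log]
  obtain ⟨f1, f2, ⟨B, f3⟩, f4, f5⟩ := fl_facts k hA
  obtain ⟨s1, s2, s3⟩ := sm_planch h hL0 f1 f2 f3
  refine ⟨s1, s2, ?_⟩
  have hV := V0_pos k hA
  have hc : Continuous (fun u : ℝ => ‖ψ (u / 2)‖ ^ 2) := by
    have := h.cont
    fun_prop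
  rw [s3]
  unfold nuT
  rw [nu_int f4 hV hc, ← integral_const_mul]
  refine integral_congr_ae (Eventually.of_forall fun ξ => ?_)
  simp only [f5]
  have e1 : -(4 * Real.pi * ξ / Real.log T) / 2 = -(2 * Real.pi * ξ / Real.log T) := by ring
  rw [e1]
  have e2 : VI (FF k T U) (1 / 2) = V0 k T U := rfl
  rw [e2]
  field_simp

theorem main1 (h : TF ξ1 ψ) (hξ : 0 ≤ ξ1) {ε η : ℝ} (hε : 0 < ε) (hη : 0 < η) :
    ∀ᶠ T : ℝ in atTop, ∀ U : ℝ, Adm T U → T ^ ε ≤ U →
      |T ^ (2 * k) * SS k ψ T U - V0 k T U * ∫ u, ‖ψ (u / 2)‖ ^ 2 ∂(nuT k T U)| ≤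
        η * V0 k T U := by
  obtain ⟨M, hM⟩ : ∃ M, ∀ u, ‖ψ u‖ ≤ M := by
    obtain ⟨M, hM⟩ := h.cs.exists_bound_of_continuous h.cont
    exact ⟨M, hM⟩
  have hM0 : 0 ≤ M := (norm_nonneg _).trans (hM 0)
  set δ : ℝ := η / (2 * (M ^ 2 + 1)) with hδ
  have hδ0 : 0 < δ := by positivity
  set η1 : ℝ := η / (2 * (1 + 1 / δ)) with hη1
  have hη10 : 0 < η1 := by positivity
  filter_upwards [err_small k h hξ hε hη10] with T h1 U hA hU
  have hT0 : 0 < T := by linarith [hA.1]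
  have hL0 : 0 < Real.log T := by linarith [hA.log]
  have hV := V0_pos k hA
  obtain ⟨b1, b2, b3⟩ := sm_fl k h hA
  have hE := h1 U hA hU
  set L := Real.log T with hLd
  set a : ℝ → ℂ := fun t => ((T : ℂ) * I) ^ k * (gg T U t : ℂ) * DP k ψ L t with ha
  set b : ℝ → ℂ := sm ψ L (fl k T U) with hb
  have hac : Continuous a := by
    have h2 := gg_cont T U
    have h3 := DP_cont k h hL0
    rw [ha]
    fun_prop
  have ham : AEStronglyMeasurable a volume := hac.aestronglyMeasurable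
  have hem : AEStronglyMeasurable (fun t => ‖a t - b t‖ ^ 2) volume := ((ham.sub b2).norm.pow 2)
  have hei : Integrable (fun t => ‖a t - b t‖ ^ 2) := by
    refine ⟨hem, ?_⟩
    rw [hasFiniteIntegral_iff_ofReal (Eventually.of_forall fun t => by positivity)]
    exact lt_of_le_of_lt hE ENNReal.ofReal_lt_top
  have hev : ∫ t, ‖a t - b t‖ ^ 2 ≤ η1 * V0 k T U := by
    rw [integral_eq_lintegral_of_nonneg_ae (Eventually.of_forall fun t => by positivity) hem]
    exact ENNReal.toReal_le_of_le_ofReal (by positivity) hE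
  have hai : Integrable (fun t => ‖a t‖ ^ 2) := by
    refine ((b1.const_mul (1 + 1)).add (hei.const_mul (1 + 1 / 1))).mono' (ham.norm.pow 2)
      (Eventually.of_forall fun t => ?_)
    rw [Real.norm_of_nonneg (by positivity)]
    exact sq_compare one_pos (a t) (b t)
  have hS : T ^ (2 * k) * SS k ψ T U = ∫ t, ‖a t‖ ^ 2 := by
    unfold SS
    rw [← integral_const_mul]
    refine integral_congr_ae (Eventually.of_forall fun t => ?_)
    simp only [ha]
    rw [norm_mul, norm_mul, norm_pow, norm_mul, Complex.norm_I, mul_one, Complex.norm_real,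
        Real.norm_of_nonneg hT0.le, Complex.norm_real, Real.norm_of_nonneg (gg_pos _ _ _).le,
        mul_pow, mul_pow, gg_sq, ← pow_mul, mul_comm k 2]
    ring
  have hνp := nuT_prob k hA
  have hbM : ∫ t, ‖b t‖ ^ 2 ≤ M ^ 2 * V0 k T U := by
    rw [b3, mul_comm]
    apply mul_le_mul_of_nonneg_right _ hV.le
    have hc : Continuous (fun u : ℝ => ‖ψ (u / 2)‖ ^ 2) := by
      have := h.cont
      fun_prop
    have i1 : Integrable (fun u : ℝ => ‖ψ (u / 2)‖ ^ 2) (nuT k T U) := by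
      refine (integrable_const (M ^ 2)).mono' hc.aestronglyMeasurable
        (Eventually.of_forall fun u => ?_)
      rw [Real.norm_of_nonneg (by positivity)]
      have := hM (u / 2)
      gcongr
    calc ∫ u, ‖ψ (u / 2)‖ ^ 2 ∂(nuT k T U) ≤ ∫ _u, M ^ 2 ∂(nuT k T U) := by
          refine integral_mono i1 (integrable_const _) fun u => ?_
          have := hM (u / 2)
          simp only
          gcongr
      _ = M ^ 2 := by simp
  have up : ∫ t, ‖a t‖ ^ 2 ≤ (1 + δ) * (∫ t, ‖b t‖ ^ 2) + (1 + 1 / δ) * ∫ t, ‖a t - b t‖ ^ 2 := by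
    rw [← integral_const_mul, ← integral_const_mul, ← integral_add (b1.const_mul _)
      (hei.const_mul _)]
    exact integral_mono hai ((b1.const_mul _).add (hei.const_mul _))
      fun t => sq_compare hδ0 (a t) (b t)
  have lo : ∫ t, ‖b t‖ ^ 2 ≤ (1 + δ) * (∫ t, ‖a t‖ ^ 2) + (1 + 1 / δ) * ∫ t, ‖a t - b t‖ ^ 2 := by
    rw [← integral_const_mul, ← integral_const_mul, ← integral_add (hai.const_mul _)
      (hei.const_mul _)]
    refine integral_mono b1 ((hai.const_mul _).add (hei.const_mul _)) fun t => ?_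
    have := sq_compare hδ0 (b t) (a t)
    simp only [Pi.add_apply]
    rwa [norm_sub_rev (b t)] at this
  rw [hS, ← b3]
  have p0 : 0 ≤ ∫ t, ‖b t‖ ^ 2 := integral_nonneg fun t => by positivity
  have p1 : 0 ≤ ∫ t, ‖a t‖ ^ 2 := integral_nonneg fun t => by positivity
  have k1 : (1 + 1 / δ) * ∫ t, ‖a t - b t‖ ^ 2 ≤ η / 2 * V0 k T U := by
    calc (1 + 1 / δ) * ∫ t, ‖a t - b t‖ ^ 2 ≤ (1 + 1 / δ) * (η1 * V0 k T U) := by gcongr
      _ = η / 2 * V0 k T U := by rw [hη1]; field_simp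
  have k2 : δ * ∫ t, ‖b t‖ ^ 2 ≤ η / 2 * V0 k T U := by
    calc δ * ∫ t, ‖b t‖ ^ 2 ≤ δ * (M ^ 2 * V0 k T U) := by gcongr
      _ = η / 2 * V0 k T U * (M ^ 2 / (M ^ 2 + 1)) := by rw [hδ]; field_simp
      _ ≤ η / 2 * V0 k T U * 1 := by
          apply mul_le_mul_of_nonneg_left _ (by positivity)
          rw [div_le_one (by positivity)]
          linarith
      _ = _ := mul_one _
  have k0 : 0 ≤ (1 + 1 / δ) * ∫ t, ‖a t - b t‖ ^ 2 := by
    have : 0 ≤ ∫ t, ‖a t - b t‖ ^ 2 := integral_nonneg fun t => by positivity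
    positivity
  rw [abs_le]
  constructor
  · by_contra hcon
    push Not at hcon
    -- b > a + η V0
    have hab : ∫ t, ‖a t‖ ^ 2 ≤ ∫ t, ‖b t‖ ^ 2 := by
      have : 0 ≤ η * V0 k T U := by positivity
      linarith
    have : δ * ∫ t, ‖a t‖ ^ 2 ≤ δ * ∫ t, ‖b t‖ ^ 2 := by gcongr
    nlinarith
  · nlinarith

end

end Q80.SP
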